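import Pool.Agent.Lib.MP_972ec5_co.Heis

/-! Arbitrarily large finite groups with three subgroups of order `p` and a uniform
Poincare inequality: subgroups of `SL₃` over finite fields of characteristic `p`. -/

namespace Pool.Agent.Lib.MP_972ec5_co

open Finset Matrix Matrix.SpecialLinearGroup

section
variable {F : Type} [CommRing F] {i j k : Fin 3}

lemma sl_ext {A B : SpecialLinearGroup (Fin 3) F}
    (h : (A : Matrix (Fin 3) (Fin 3) F) = (B : Matrix (Fin 3) (Fin 3) F)) : A = B := Subtype.ext h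

lemma tv_rel (hij : i ≠ j) (hjk : j ≠ k) (hik : i ≠ k) (a b : F) :
    transvection hjk b * transvection hij a =
      transvection hij a * transvection hik (-(a * b)) * transvection hjk b := by
    apply sl_ext
    change (1 + single j k b) * (1 + single i j a) =
      (1 + single i j a) * (1 + single i k (-(a * b))) * (1 + single j k b)
    simp only [mul_add, add_mul, one_mul, mul_one,
      single_mul_single_same, single_mul_single_of_ne _ _ _ _ hij.symm,
      single_mul_single_of_ne _ _ _ _ hik.symm, single_mul_single_of_ne _ _ _ _ hjk.symm,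
      Matrix.zero_mul, add_zero]
    rw [← single_neg]
    abel

lemma tv_c1 (hij : i ≠ j) (hik : i ≠ k) (a c : F) :
    transvection hik c * transvection hij a = transvection hij a * transvection hik c := by
    apply sl_ext
    change (1 + single i k c) * (1 + single i j a) = (1 + single i j a) * (1 + single i k c)
    simp only [mul_add, add_mul, one_mul, mul_one,
      single_mul_single_of_ne _ _ _ _ hij.symm, single_mul_single_of_ne _ _ _ _ hik.symm, add_zero]
    abel

lemma tv_c2 (hjk : j ≠ k) (hik : i ≠ k) (b c : F) :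
    transvection hik c * transvection hjk b = transvection hjk b * transvection hik c := by
    apply sl_ext
    change (1 + single i k c) * (1 + single j k b) = (1 + single j k b) * (1 + single i k c)
    simp only [mul_add, add_mul, one_mul, mul_one,
      single_mul_single_of_ne _ _ _ _ hjk.symm, single_mul_single_of_ne _ _ _ _ hik.symm, add_zero]
    abel

lemma tv_mem {Λ : Subgroup (SpecialLinearGroup (Fin 3) F)} (hij : i ≠ j) (hjk : j ≠ k)
    (hik : i ≠ k) {a b : F} (ha : transvection hij a ∈ Λ) (hb : transvection hjk b ∈ Λ) :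
    transvection hik (a * b) ∈ Λ := by
  have h := Λ.mul_mem hb ha
  rw [tv_rel hij hjk hik, Λ.mul_mem_cancel_right hb, Λ.mul_mem_cancel_left ha,
    ← transvection_inv] at h
  exact Λ.inv_mem_iff.1 h

lemma heis_of {p : ℕ} [Fact p.Prime] (ι : ZMod p →+* F) {Λ : Subgroup (SpecialLinearGroup (Fin 3) F)}
    (hij : i ≠ j) (hjk : j ≠ k) (hik : i ≠ k) (s t : F)
    (hx : ∀ a, transvection hij (ι a * s) ∈ Λ) (hy : ∀ a, transvection hjk (ι a * t) ∈ Λ) :
    ∃ c : ZMod p → Λ, Heis (fun a => (⟨_, hx a⟩ : Λ)) (fun a => ⟨_, hy a⟩) c := by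
  have hc : ∀ a, transvection hik (-(ι a * s * t)) ∈ Λ := fun a => by
    have := tv_mem hij hjk hik (hx a) (hy 1)
    rw [map_one, one_mul] at this
    rw [← transvection_inv]
    exact Λ.inv_mem this
  refine ⟨fun a => ⟨_, hc a⟩, fun a b => ?_, fun a b => ?_, fun a b => ?_, fun a b => ?_,
    fun a b => ?_, fun a b => ?_⟩ <;> apply Subtype.ext <;> simp only [Subgroup.coe_mul]
  · rw [← transvection_add, map_add, add_mul]
  · rw [← transvection_add, map_add, add_mul]
  · rw [← transvection_add, map_add, add_mul, add_mul, neg_add]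
  · exact tv_c1 ..
  · exact tv_c2 ..
  · rw [tv_rel hij hjk hik, map_mul]
    congr 3
    ring

end

theorem exists_group (p : ℕ) [Fact p.Prime] (hp : 16 ≤ p) (n : ℕ) :
    ∃ (Λ : Type) (_ : Group Λ) (_ : Fintype Λ) (X : Fin 3 → ZMod p → Λ),
      n ≤ Fintype.card Λ ∧ (∀ j, Hom (X j)) ∧ ∀ φ : Λ → ℝ, ∃ μ : ℝ,
        ∑ ξ, (φ ξ - μ) ^ 2 ≤ 2 * ∑ j, ∑ i, ∑ ξ, (φ (X j i * ξ) - φ ξ) ^ 2 := by
  let F := GaloisField p (n + 1)
  obtain ⟨τ, hτ⟩ := IsCyclic.exists_ofOrder_eq_natCard (α := Fˣ)
  rw [Nat.card_units, GaloisField.card p (n + 1) (by omega)] at hτ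
  have hn : n + 1 < p ^ (n + 1) := Nat.lt_pow_self (by omega)
  let ι := algebraMap (ZMod p) F
  have h01 : (0 : Fin 3) ≠ 1 := by decide
  have h12 : (1 : Fin 3) ≠ 2 := by decide
  have h20 : (2 : Fin 3) ≠ 0 := by decide
  let Λ : Subgroup (SpecialLinearGroup (Fin 3) F) := Subgroup.closure
    {g | ∃ a, g = transvection h01 (ι a * 1) ∨ g = transvection h12 (ι a * 1) ∨
      g = transvection h20 (ι a * τ)}
  have hx : ∀ a, transvection h01 (ι a * 1) ∈ Λ := fun a =>
    Subgroup.subset_closure ⟨a, Or.inl rfl⟩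
  have hy : ∀ a, transvection h12 (ι a * 1) ∈ Λ := fun a =>
    Subgroup.subset_closure ⟨a, Or.inr (Or.inl rfl)⟩
  have hz : ∀ a, transvection h20 (ι a * τ) ∈ Λ := fun a =>
    Subgroup.subset_closure ⟨a, Or.inr (Or.inr rfl)⟩
  obtain ⟨c, hc⟩ := heis_of ι h01 h12 h20.symm _ _ hx hy
  obtain ⟨d, hd⟩ := heis_of ι h12 h20 h01.symm _ _ hy hz
  obtain ⟨e, he⟩ := heis_of ι h20 h01 h12.symm _ _ hz hx
  let _ : Fintype Λ := Fintype.ofFinite Λ
  refine ⟨Λ, inferInstance, inferInstance,
    ![fun a => ⟨_, hx a⟩, fun a => ⟨_, hy a⟩, fun a => ⟨_, hz a⟩], ?_, ?_, fun φ => ?_⟩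
  · have m : ∀ r : ℕ, transvection h12 ((τ : F) ^ r) ∈ Λ := fun r => by
      induction r with
      | zero => simpa using hy 1
      | succ r ih =>
        simpa [pow_succ] using tv_mem h01.symm h20.symm h12 (tv_mem h12 h20 h01.symm ih (hz 1))
          (tv_mem h01 h12 h20.symm (hx 1) (hy 1))
    have := Fintype.card_le_of_injective (fun r : Fin n => (⟨_, m r⟩ : Λ)) fun r r' h => by
      have h1 := congrArg (fun g : Λ => g.1.1 1 2) h
      simp only [transvection_coe, Matrix.add_apply, single_apply_same, add_right_inj] at h1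
      have h2 : τ ^ (r : ℕ) = τ ^ (r' : ℕ) := Units.ext (by simpa using h1)
      exact Fin.ext (pow_injOn_Iio_orderOf (by simp only [Set.mem_Iio]; omega)
        (by simp only [Set.mem_Iio]; omega) h2)
    simpa using this
  · intro j
    fin_cases j
    exacts [hc.hx, hd.hx, he.hx]
  · rw [Fin.sum_univ_three]
    refine heis_poin hc hd he hp (fun f f1 f2 f3 ξ => ?_) φ
    have key : ∀ g (hg : g ∈ Λ) (η : Λ), f (⟨g, hg⟩ * η) = f η := fun g hg => by
      induction hg using Subgroup.closure_induction with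
      | mem g h =>
        obtain ⟨a, rfl | rfl | rfl⟩ := h
        exacts [f1 a, f2 a, f3 a]
      | one => intro η; exact congrArg f (one_mul η)
      | mul g g' hg hg' ih ih' =>
        intro η
        rw [← ih' η, ← ih (⟨g', hg'⟩ * η), ← mul_assoc]
        rfl
      | inv g hg ih =>
        intro η
        rw [← ih, ← mul_assoc]
        exact congrArg f (by rw [show (⟨g, hg⟩ : Λ) * ⟨g⁻¹, _⟩ = 1 from
          Subtype.ext (mul_inv_cancel g), one_mul])
    simpa using key ξ.1 ξ.2 1

end Pool.Agent.Lib.MP_972ec5_co
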