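import Mathlib

/-! Definitions for locally and globally expanding `(a,b,c)`-regular graphs. -/

namespace Pool.Agent.Lib.MP_972ec5_co

open Classical in
/-- The second largest eigenvalue, counted with multiplicity, of the adjacency matrix of a finite
graph (`eigenvalues₀` lists the eigenvalues in decreasing order, starting at index `0`);
`0` for a graph with at most one vertex. -/
noncomputable def lam2 {V : Type} [Finite V] (H : SimpleGraph V) : ℝ :=
  letI := Fintype.ofFinite V
  if h : 1 < Fintype.card V then (H.isHermitian_adjMatrix ℝ).eigenvalues₀ ⟨1, h⟩ else 0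

/-- Every vertex has exactly `d` neighbours. -/
def Reg {V : Type} (H : SimpleGraph V) (d : ℕ) : Prop := ∀ v, (H.neighborSet v).ncard = d

/-- `G` is `(a,b,c)`-regular and satisfies the three eigenvalue bounds with gap `ε`. -/
def Good {V : Type} [Finite V] (G : SimpleGraph V) (a b c : ℕ) (ε : ℝ) : Prop :=
  (Reg G a ∧ lam2 G ≤ a - ε) ∧
  (∀ v, Reg (G.induce (G.neighborSet v)) b ∧ lam2 (G.induce (G.neighborSet v)) ≤ b - ε) ∧
  ∀ u v, G.Adj u v →
    Reg (G.induce (G.commonNeighbors u v)) c ∧ lam2 (G.induce (G.commonNeighbors u v)) ≤ c - ε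

end Pool.Agent.Lib.MP_972ec5_co
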