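import Pool.Agent.Lib.MP_972ec5_co.Spec

/-! The Eisenstein integers modulo `N` and the triangulated torus on them. -/

namespace Pool.Agent.Lib.MP_972ec5_co

open SimpleGraph QuadraticAlgebra

abbrev Ei (N : ℕ) := QuadraticAlgebra (ZMod N) (-1) 1

variable {N : ℕ}

def ze : Ei N := QuadraticAlgebra.omega

lemma ze_sq : (ze : Ei N) ^ 2 = ze - 1 := by
  rw [sq]; ext <;> simp [ze]

lemma ze_three : (ze : Ei N) ^ 3 = -1 := by linear_combination (ze + 1) * (ze_sq (N := N))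

lemma ze_six : (ze : Ei N) ^ 6 = 1 := by
  linear_combination (ze ^ 3 - 1) * (ze_three (N := N))

lemma ze_inv (i : ℕ) : (ze : Ei N) ^ (5 * i) * ze ^ i = 1 := by
  rw [← pow_add, show 5 * i + i = 6 * i by ring, pow_mul, ze_six, one_pow]

instance [NeZero N] : Finite (Ei N) :=
  Finite.of_equiv _ (QuadraticAlgebra.equivProd (-1 : ZMod N) 1).symm

lemma card_Ei : Nat.card (Ei N) = N ^ 2 := by
  rw [Nat.card_congr (QuadraticAlgebra.equivProd (-1 : ZMod N) 1), Nat.card_prod, Nat.card_zmod, sq]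

lemma Ei_ind [NeZero N] {P : Ei N → Prop} (h0 : P 0) (h1 : ∀ a, P a → P (a + 1))
    (h2 : ∀ a, P a → P (a + ze)) (a : Ei N) : P a := by
  have k1 : ∀ n : ℕ, P n := fun n => by
    induction n with
    | zero => simpa using h0
    | succ n ih => simpa using h1 _ ih
  have k2 : ∀ n m : ℕ, P ((n : Ei N) + (m : Ei N) * ze) := fun n m => by
    induction m with
    | zero => simpa using k1 n
    | succ m ih => have := h2 _ ih; push_cast; convert this using 1; ring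
  convert k2 a.re.val a.im.val
  ext <;> simp [ze, -ZMod.natCast_val, ZMod.natCast_zmod_val]

lemma exists_t [NeZero N] (h1 : 1 < N) {Γ : Type} [Group Γ] {T U : Γ} (hT : T ^ N = 1)
    (hU : U ^ N = 1) (hc : T * U = U * T) :
    ∃ t : Ei N → Γ, (∀ a b, t (a + b) = t a * t b) ∧ t 1 = T ∧ t ze = U := by
  have : Fact (1 < N) := ⟨h1⟩
  refine ⟨fun a => T ^ a.re.val * U ^ a.im.val, fun a b => ?_, ?_, ?_⟩
  · simp only [QuadraticAlgebra.re_add, QuadraticAlgebra.im_add, ZMod.val_add]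
    rw [← pow_eq_pow_mod _ hT, ← pow_eq_pow_mod _ hU, pow_add, pow_add, mul_assoc, mul_assoc,
      ← mul_assoc (U ^ _), ← (Commute.pow_pow hc _ _).eq, mul_assoc]
  · simp [QuadraticAlgebra.re_one, QuadraticAlgebra.im_one, ZMod.val_one]
  · simp [ze, ZMod.val_one]

def uu : Fin 6 → ℤ × ℤ := ![(1, 0), (0, 1), (-1, 1), (-1, 0), (0, -1), (1, -1)]

def cs (x : ℤ × ℤ) : Ei N := (x.1 : Ei N) + (x.2 : Ei N) * ze

lemma cs_sub (x y : ℤ × ℤ) : (cs (x - y) : Ei N) = cs x - cs y := by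
  simp only [cs, Prod.fst_sub, Prod.snd_sub]; push_cast; ring

lemma cs_uu (i : Fin 6) : (cs (uu i) : Ei N) = ze ^ (i : ℕ) := by
  have h2 := ze_sq (N := N)
  have h3 := ze_three (N := N)
  fin_cases i <;> simp [cs, uu]
  · linear_combination -h2
  · linear_combination -h3
  · linear_combination -ze * h3
  · linear_combination -ze ^ 2 * h3 + h2

lemma cs_zero (h8 : 8 ∣ N) {x : ℤ × ℤ} (h : (cs x : Ei N) = 0) : 8 ∣ x.1 ∧ 8 ∣ x.2 := by
  have h1 := congrArg QuadraticAlgebra.re h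
  have h2 := congrArg QuadraticAlgebra.im h
  simp [cs, ze] at h1 h2
  have h8' : (8 : ℤ) ∣ N := by exact_mod_cast h8
  exact ⟨h8'.trans ((ZMod.intCast_zmod_eq_zero_iff_dvd _ _).1 h1),
    h8'.trans ((ZMod.intCast_zmod_eq_zero_iff_dvd _ _).1 h2)⟩

lemma ze_pow_mod (i : ℕ) : ∃ k : Fin 6, (ze : Ei N) ^ i = ze ^ (k : ℕ) :=
  ⟨⟨i % 6, Nat.mod_lt _ (by norm_num)⟩, pow_eq_pow_mod i ze_six⟩

lemma ze_pow_ne (h8 : 8 ∣ N) (i : ℕ) : (ze : Ei N) ^ i ≠ 0 := fun h => by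
  have h1 := ze_inv (N := N) i
  rw [h, mul_zero, ← pow_zero ze] at h1
  have := cs_zero h8 ((cs_uu 0).trans h1.symm)
  simp [uu] at this

/-- The triangulated torus: the Cayley graph of `Ei N` for the six units. -/
def Cay (h8 : 8 ∣ N) : SimpleGraph (Ei N) where
  Adj a a' := ∃ i : ℕ, a' - a = ze ^ i
  symm := ⟨fun a a' ⟨i, h⟩ => ⟨i + 3, by rw [pow_add, ze_three, ← h]; ring⟩⟩
  loopless := ⟨fun a ⟨i, h⟩ => ze_pow_ne h8 i (by rw [← h, sub_self])⟩

lemma nice_cycle : Nice (cycleGraph 6) 6 2 := by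
  refine ⟨cycleGraph_preconnected, fun v => ?_, by simp⟩
  rw [← cycleGraph_degree_three_le (n := 3) (v := v), ← card_neighborSet_eq_degree,
    Set.ncard_eq_toFinset_card', Set.toFinset_card]

lemma nice_hex (h8 : 8 ∣ N) (a : Ei N) :
    Nice ((Cay h8).induce ((Cay h8).neighborSet a)) 6 2 := by
  have f1 : ∀ i j k : Fin 6, 8 ∣ (uu j - uu i - uu k).1 ∧ 8 ∣ (uu j - uu i - uu k).2 →
    (cycleGraph 6).Adj i j := by decide
  have f2 : ∀ i j : Fin 6, (cycleGraph 6).Adj i j → ∃ k, uu j - uu i = uu k := by decide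
  have f3 : ∀ i j : Fin 6, 8 ∣ (uu j - uu i).1 ∧ 8 ∣ (uu j - uu i).2 → i = j := by decide
  let φ : Fin 6 → (Cay h8).neighborSet a := fun i => ⟨a + ze ^ (i : ℕ), i, by ring⟩
  have hb : Function.Bijective φ := by
    refine ⟨fun i j h => f3 i j (cs_zero h8 ?_), fun ⟨b, i, h⟩ => ?_⟩
    · have : a + ze ^ (i : ℕ) = a + ze ^ (j : ℕ) := congrArg Subtype.val h
      rw [cs_sub, cs_uu, cs_uu, add_left_cancel this, sub_self]
    · obtain ⟨k, hk⟩ := ze_pow_mod (N := N) i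
      exact ⟨k, Subtype.ext (by simp only [φ]; rw [← hk, ← h]; ring)⟩
  refine nice_cycle.iso ⟨Equiv.ofBijective φ hb, fun {i j} => ⟨fun ⟨l, h⟩ => ?_, fun h => ?_⟩⟩
  · obtain ⟨k, hk⟩ := ze_pow_mod (N := N) l
    refine f1 i j k (cs_zero h8 ?_)
    have : a + ze ^ (j : ℕ) - (a + ze ^ (i : ℕ)) = ze ^ l := h
    rw [cs_sub, cs_sub, cs_uu, cs_uu, cs_uu, ← hk, ← this]
    ring
  · obtain ⟨k, hk⟩ := f2 i j h
    refine ⟨k, ?_⟩
    show a + ze ^ (j : ℕ) - (a + ze ^ (i : ℕ)) = ze ^ (k : ℕ)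
    rw [← cs_uu k, ← hk, cs_sub, cs_uu, cs_uu]
    ring

lemma nice_cay [NeZero N] (h8 : 8 ∣ N) : Nice (Cay h8) (N ^ 2) 6 := by
  refine ⟨fun a b => ?_, fun a => (nice_hex h8 a).2.2, card_Ei⟩
  have key : ∀ a, (Cay h8).Reachable 0 a := Ei_ind (Reachable.refl _)
    (fun a h => h.trans (Adj.reachable ⟨0, by ring⟩))
    (fun a h => h.trans (Adj.reachable ⟨1, by ring⟩))
  exact (key a).symm.trans (key b)

end Pool.Agent.Lib.MP_972ec5_co
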