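import Pool.Agent.Lib.MP_972ec5_co.Global

/-! The uniform Poincare inequality for the finite actions. -/

namespace Pool.Agent.Lib.MP_972ec5_co

open Equiv Finset

section
variable {α β : Type} [Fintype α] [Fintype β]

lemma sum_le_inj {π : α → β} (hπ : Function.Injective π) (h : β → ℝ) (h0 : ∀ b, 0 ≤ h b) :
    ∑ a, h (π a) ≤ ∑ b, h b := by
  classical
  rw [← sum_image (s := univ) (g := π) (f := h) hπ.injOn]
  exact sum_le_sum_of_subset_of_nonneg (subset_univ _) fun b _ _ => h0 b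

lemma sum_le_surj {π : α → β} (hπ : Function.Surjective π) (h : β → ℝ) (h0 : ∀ b, 0 ≤ h b) :
    ∑ b, h b ≤ ∑ a, h (π a) := by
  have := sum_le_inj (Function.injective_surjInv hπ) (fun a => h (π a)) fun a => h0 _
  simpa only [Function.surjInv_eq] using this

noncomputable def D (F : α → ℝ) (γ : Perm α) : ℝ := ∑ y, (F (γ y) - F y) ^ 2

lemma D_nonneg (F : α → ℝ) (γ : Perm α) : 0 ≤ D F γ := sum_nonneg fun _ _ => sq_nonneg _

lemma D_mul (F : α → ℝ) (γ δ : Perm α) : D F (γ * δ) ≤ 2 * D F γ + 2 * D F δ := by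
  unfold D
  rw [← Equiv.sum_comp δ fun y => (F (γ y) - F y) ^ 2, mul_sum, mul_sum, ← sum_add_distrib]
  refine sum_le_sum fun y _ => ?_
  rw [Perm.mul_apply]
  nlinarith [sq_nonneg (F (γ (δ y)) - 2 * F (δ y) + F y)]

lemma D_prod (F : α → ℝ) {D0 : ℝ} (h0 : 0 ≤ D0) (l : List (Perm α)) (h : ∀ γ ∈ l, D F γ ≤ D0) :
    D F l.prod ≤ 2 ^ (l.length + 1) * D0 := by
  suffices D F l.prod ≤ (2 ^ (l.length + 1) - 2) * D0 by linarith
  induction l with
  | nil => simp [D]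
  | cons γ l ih =>
    have h1 := D_mul F γ l.prod
    have h2 := h γ (by simp)
    have h3 := ih fun δ hδ => h δ (by simp [hδ])
    rw [List.prod_cons, List.length_cons, pow_succ (2 : ℝ) (l.length + 1)]
    linarith

end

variable {N : ℕ} [NeZero N]

def bs {Λ : Type} (ξ : Λ) : Y N Λ := ⟨(q0, s0, ξ), [], rfl⟩

omit [NeZero N] in
lemma bs_inj {Λ : Type} : Function.Injective (bs : Λ → Y N Λ) := fun _ _ h =>
  congrArg (fun y : Y N Λ => y.1.2.2) h

open Classical in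
noncomputable def wi (i : Q N × Raw) : List Gen := if h : In i then h.choose else []

section
variable {Λ : Type} [Group Λ] [Finite Λ] (u : Fin 3 → Λ)

lemma cover : Function.Surjective fun c : (Q N × Raw) × Λ => W u (wi c.1) (bs c.2 : Y N Λ) := by
  intro y
  have h : (y.1.1, y.1.2.1) = (wi (y.1.1, y.1.2.1)).foldr actI (q0, s0) := by
    rw [wi, dif_pos y.2]; exact y.2.choose_spec
  set w := wi (y.1.1, y.1.2.1)
  refine ⟨((y.1.1, y.1.2.1), (evL u (runG w s0).2)⁻¹ * y.1.2.2), Subtype.ext ?_⟩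
  have h1 := (pr_fw u w (bs ((evL u (runG w s0).2)⁻¹ * y.1.2.2) : Y N Λ)).trans h.symm
  have h2 := congrArg (fun z => z.2.2) (val_fw u w (bs ((evL u (runG w s0).2)⁻¹ * y.1.2.2) : Y N Λ))
  simp only [W_apply]
  refine Prod.ext (Prod.mk.inj h1).1 (Prod.ext (Prod.mk.inj h1).2 (h2.trans ?_))
  simp [bs]

lemma hw_pow (j : Fin 3) (k : ℕ) (ξ : Λ) :
    (W u (hw j) ^ (Nat.card (Perm (Q N)) * k)) (bs ξ : Y N Λ) =
      bs (u j ^ (Nat.card (Perm (Q N)) * k) * ξ) := by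
  have hi : ∀ w : List Gen, Function.Injective fun q : Q N => w.foldr actQ q := fun w => by
    induction w with
    | nil => exact Function.injective_id
    | cons g w ih => exact (actQ_inj g).comp ih
  let φ : Perm (Q N) := Equiv.ofBijective _ (Finite.injective_iff_bijective.1 (hi (hw j)))
  have key : ∀ n : ℕ, ((W u (hw j) ^ n) (bs ξ : Y N Λ)).1 = ((φ ^ n) q0, s0, u j ^ n * ξ) := by
    intro n
    induction n with
    | zero => simp [bs]
    | succ n ih =>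
      rw [pow_succ', Perm.mul_apply, W_apply, val_fw, ih, hw_run, pow_succ', pow_succ', mul_assoc]
      simp [evL, ev, φ]
  refine Subtype.ext ((key _).trans ?_)
  rw [pow_mul φ, pow_card_eq_one', one_pow]
  rfl

end

theorem poinY (p : ℕ) [Fact p.Prime] (hp : Nat.card (Q N) < p) :
    ∃ C : ℝ, 0 < C ∧ ∀ (Λ : Type) [Group Λ] [Fintype Λ] (X : Fin 3 → ZMod p → Λ),
      (∀ j, Hom (X j)) → (∀ φ : Λ → ℝ, ∃ μ : ℝ,
        ∑ ξ, (φ ξ - μ) ^ 2 ≤ 2 * ∑ j, ∑ i, ∑ ξ, (φ (X j i * ξ) - φ ξ) ^ 2) →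
      ∀ [Fintype (Y N Λ)] (F : Y N Λ → ℝ) (D0 : ℝ), (∀ g, D F (P (fun j => X j 1) g) ≤ D0) →
        ∃ μ : ℝ, ∑ y, (F y - μ) ^ 2 ≤ C * D0 := by
  let _ := Fintype.ofFinite (Q N × Raw)
  set e := Nat.card (Perm (Q N)) with he
  have he0 : (e : ZMod p) ≠ 0 := by
    rw [Ne, ZMod.natCast_eq_zero_iff, he, Nat.card_perm, (Fact.out : p.Prime).dvd_factorial]
    omega
  let K : ℝ := 2 * ∑ _j : Fin 3, ∑ _i : ZMod p, 2 ^ (e * p + 1) * 2 ^ 23
  have hK : 0 ≤ K := by positivity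
  refine ⟨∑ i : Q N × Raw, (2 * 2 ^ ((wi i).length + 1) + 2 * K),
    sum_pos (fun _ _ => by positivity) ⟨(q0, s0), mem_univ _⟩, fun Λ _ _ X hX hP _ F D0 hD => ?_⟩
  set u : Fin 3 → Λ := fun j => X j 1
  have h0 : 0 ≤ D0 := (D_nonneg _ _).trans (hD .T)
  have hW : ∀ w, D F (W u w) ≤ 2 ^ (w.length + 1) * D0 := fun w => by
    have := D_prod F h0 (w.map (P u)) (by simpa using fun g _ => hD g)
    rwa [List.length_map] at this
  have hb : ∀ γ : Perm (Y N Λ), ∑ ξ : Λ, (F (γ (bs ξ)) - F (bs ξ)) ^ 2 ≤ D F γ := fun γ =>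
    sum_le_inj bs_inj (fun y => (F (γ y) - F y) ^ 2) fun _ => sq_nonneg _
  have hx : ∀ j (n : ℕ), u j ^ n = X j n := fun j n => by
    induction n with
    | zero => simp [(hX j).zero]
    | succ n ih => rw [pow_succ, ih, Nat.cast_succ, hX j]
  obtain ⟨μ, hμ⟩ := hP fun ξ => F (bs ξ)
  have h1 : ∑ ξ, (F (bs ξ) - μ) ^ 2 ≤ K * D0 := by
    refine hμ.trans ?_
    simp only [K, mul_assoc, sum_mul]
    refine mul_le_mul_of_nonneg_left (sum_le_sum fun j _ => sum_le_sum fun i _ => ?_) (by norm_num)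
    set k := (i * (e : ZMod p)⁻¹).val
    have hk : X j i = u j ^ (e * k) := by
      rw [hx, Nat.cast_mul, ZMod.natCast_zmod_val, mul_comm, inv_mul_cancel_right₀ he0]
    have a1 := hb (W u (hw j) ^ (e * k))
    simp only [he, hw_pow] at a1
    simp only [← he, ← hk] at a1
    have a2 := D_prod F (D_nonneg F (W u (hw j))) (List.replicate (e * k) (W u (hw j)))
      fun γ hγ => by rw [List.eq_of_mem_replicate hγ]
    rw [List.prod_replicate, List.length_replicate] at a2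
    have a3 : (2 : ℝ) ^ (e * k + 1) ≤ 2 ^ (e * p + 1) := pow_le_pow_right₀ (by norm_num)
      (Nat.succ_le_succ (Nat.mul_le_mul_left _ (ZMod.val_lt _).le))
    have a4 : (2 : ℝ) ^ ((hw j).length + 1) ≤ 2 ^ 23 := pow_le_pow_right₀ (by norm_num)
      (by fin_cases j <;> decide)
    exact a1.trans (a2.trans (mul_le_mul a3 ((hW _).trans (mul_le_mul_of_nonneg_right a4 h0))
      (D_nonneg _ _) (by positivity)))
  refine ⟨μ, (sum_le_surj (cover u) (fun y => (F y - μ) ^ 2) fun _ => sq_nonneg _).trans ?_⟩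
  rw [Fintype.sum_prod_type, sum_mul]
  refine sum_le_sum fun i _ => ?_
  have a1 := (hb (W u (wi i))).trans (hW _)
  have a2 : ∑ ξ : Λ, (F (W u (wi i) (bs ξ)) - μ) ^ 2 ≤
      2 * ∑ ξ : Λ, (F (W u (wi i) (bs ξ)) - F (bs ξ)) ^ 2 + 2 * ∑ ξ, (F (bs ξ) - μ) ^ 2 := by
    rw [mul_sum, mul_sum, ← sum_add_distrib]
    exact sum_le_sum fun ξ _ => by
      nlinarith [sq_nonneg (F (W u (wi i) (bs ξ)) - 2 * F (bs ξ) + μ)]
  linarith

theorem main (h8 : 8 ∣ N) : ∃ ε : ℝ, 0 < ε ∧ ∀ n : ℕ, ∃ (V : Type) (_ : Finite V)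
    (G : SimpleGraph V), n ≤ Nat.card V ∧ Good G (N ^ 2) 6 2 ε := by
  obtain ⟨p, hp, hpp⟩ := Nat.exists_infinite_primes (Nat.card (Q N) + 16)
  have : Fact p.Prime := ⟨hpp⟩
  obtain ⟨C, hC, hY⟩ := poinY (N := N) p (by omega)
  have hN : 8 ≤ N := Nat.le_of_dvd (NeZero.pos N) h8
  have hN' : (0 : ℝ) < N := by exact_mod_cast NeZero.pos N
  refine ⟨min (1 / (2 * C * (36 * N ^ 2)))
    (min (1 / ((N ^ 2 : ℕ) * 2 ^ (N ^ 2 + 1))) (1 / ((6 : ℕ) * 2 ^ (6 + 1)))),
    by positivity, fun n => ?_⟩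
  obtain ⟨Λ, _, _, X, hn, hX, hP⟩ := exists_group p (by omega) (36 * N ^ 2 * (n + 2))
  let S := setup (N := N) (fun j => X j 1) h8
  let _ := Fintype.ofFinite (Y N Λ)
  let _ := Fintype.ofFinite S.V
  have hc : n + 2 ≤ Fintype.card S.V := by
    have a1 := (S.sum_cl (fun _ => 1) fun _ => zero_le_one).2
    have a2 := Fintype.card_le_of_injective _ (bs_inj (N := N) (Λ := Λ))
    simp only [sum_const, card_univ, nsmul_eq_mul, mul_one] at a1
    have a3 : Fintype.card (Y N Λ) ≤ 36 * N ^ 2 * Fintype.card S.V := by exact_mod_cast a1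
    exact Nat.le_of_mul_le_mul_left (hn.trans (a2.trans a3)) (by positivity)
  have hG : Poin S.G (2 * C * (36 * N ^ 2)) := fun F => by
    have e0 := En_nonneg S.G F
    have z : ∀ b ∈ S.B, D (fun y => F (S.cl y)) b ≤ 36 * N ^ 2 * En S.G F := fun b hb => by
      simp only [D, S.cl_B hb, sub_self]
      simp only [ne_eq, OfNat.ofNat_ne_zero, not_false_eq_true, zero_pow, sum_const_zero]
      positivity
    obtain ⟨μ, hμ⟩ := hY Λ X hX hP (fun y => F (S.cl y)) (36 * N ^ 2 * En S.G F) fun g => by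
      cases g
      exacts [z _ (S.t_one ▸ S.t_mem 1 : S.T ∈ S.B), S.DS_le F, z _ S.ρ_mem, z _ S.σ_mem]
    have a1 := (S.sum_cl (fun v => (F v - μ) ^ 2) fun _ => sq_nonneg _).1
    have a2 := Var_eq fun v => F v - μ
    simp only [Var, sub_sub_sub_cancel_right, dotProduct, ← sq] at a2
    have a3 := mul_le_mul_of_nonneg_left (a1.trans hμ)
      (by positivity : (0 : ℝ) ≤ 2 * Fintype.card S.V)
    unfold Var
    nlinarith [sq_nonneg (∑ v, (F v - μ))]
  refine ⟨S.V, inferInstance, S.G, by rw [Nat.card_eq_fintype_card]; omega,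
    ⟨S.reg, ?_⟩, fun v => ⟨(S.nice_link v).2.1, ?_⟩, fun u v h => ⟨(S.nice_edge h).2.1, ?_⟩⟩
  · exact (lam2_le S.G S.reg (by positivity) hG (by omega)).trans
      (sub_le_sub_left (min_le_left _ _) _)
  · exact ((S.nice_link v).gap (by nlinarith)).trans
      (sub_le_sub_left ((min_le_right _ _).trans (min_le_left _ _)) _)
  · exact ((S.nice_edge h).gap (by norm_num)).trans
      (sub_le_sub_left ((min_le_right _ _).trans (min_le_right _ _)) _)

end Pool.Agent.Lib.MP_972ec5_co
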