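import Mathlib

/-! A finite coset table with voltages in the free group on three letters, on which the
relations of the level `8` quotient of `PGL₂` of the Eisenstein integers hold. -/

namespace Pool.Agent.Lib.MP_972ec5_co

inductive V5 | a | b | c | d | e deriving DecidableEq
inductive P8 | p0 | p1 | p2 | p3 | p4 | p5 | p6 | p7 deriving DecidableEq
inductive L4 | o | a | b | c
inductive Mv | R | r | A | B
inductive Gen | T | S | r | s

structure Raw where
  v0 : V5
  v1 : V5
  v2 : V5
  v3 : V5
  v4 : V5
  p : P8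
  e : Bool
  deriving DecidableEq

def l5 : List V5 := [.a, .b, .c, .d, .e]
def l8 : List P8 := [.p0, .p1, .p2, .p3, .p4, .p5, .p6, .p7]
lemma m5 (v : V5) : v ∈ l5 := by cases v <;> decide
lemma m8 (v : P8) : v ∈ l8 := by cases v <;> decide
instance : Fintype V5 := Fintype.ofList l5 m5
instance : Fintype P8 := Fintype.ofList l8 m8

instance : Finite Raw :=
  Finite.of_injective (fun s : Raw => (s.v0, s.v1, s.v2, s.v3, s.v4, s.p, s.e))
    fun s t h => by cases s; cases t; simpa using h

abbrev Lt := Fin 3 × Bool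

def gl : V5 → V5 → L4
  | .b, .c => .a | .b, .d => .a | .b, .e => .a | .c, .b => .a | .d, .b => .a | .e, .b => .a
  | .c, .d => .b | .d, .c => .b | .d, .e => .b | .e, .d => .b | .c, .e => .c | .e, .c => .c
  | _, _ => .o

def letter : L4 → P8 → Bool → P8 × Bool × Option Lt
  | .o, p, e => (p, e, none)
  | .a, .p0, e => (.p1, e, none) | .a, .p1, e => (.p0, e, none)
  | .a, .p2, e => (.p3, e, none) | .a, .p3, e => (.p2, e, none)
  | .a, .p4, e => (.p5, e, none) | .a, .p5, e => (.p4, e, none)
  | .a, .p6, e => (.p7, e, none) | .a, .p7, e => (.p6, e, none)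
  | .b, .p0, e => (.p7, e, none) | .b, .p1, e => (.p2, e, none)
  | .b, .p2, e => (.p1, e, none) | .b, .p3, e => (.p4, e, none)
  | .b, .p4, e => (.p3, e, none) | .b, .p5, e => (.p6, e, none)
  | .b, .p6, e => (.p5, e, none) | .b, .p7, e => (.p0, e, none)
  | .c, .p0, true => (.p0, false, none) | .c, .p0, false => (.p0, true, none)
  | .c, .p2, true => (.p2, false, some (0, true)) | .c, .p2, false => (.p2, true, some (0, false))
  | .c, .p4, true => (.p4, false, some (1, true)) | .c, .p4, false => (.p4, true, some (1, false))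
  | .c, .p6, true => (.p6, false, some (2, true)) | .c, .p6, false => (.p6, true, some (2, false))
  | .c, p, e => (p, e, none)

def step : Mv → Raw → Raw × Option Lt
  | .R, ⟨v0, v1, v2, v3, v4, p, e⟩ =>
    match letter (gl v4 v2) p e with | (p', e', o) => (⟨v0, v1, v3, v4, v2, p', e'⟩, o)
  | .r, ⟨v0, v1, v2, v3, v4, p, e⟩ =>
    match letter (gl v4 v3) p e with | (p', e', o) => (⟨v0, v1, v4, v2, v3, p', e'⟩, o)
  | .A, ⟨v0, v1, v2, v3, v4, p, e⟩ => (⟨v0, v3, v1, v2, v4, p, e⟩, none)
  | .B, ⟨v0, v1, v2, v3, v4, p, e⟩ => (⟨v1, v0, v3, v2, v4, p, e⟩, none)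

def push : Option Lt → List Lt → List Lt
  | none, w => w
  | some l, [] => [l]
  | some l, l' :: w => if l' = (l.1, !l.2) then w else l :: l' :: w

def run : List Mv → Raw → Raw × List Lt
  | [], s => (s, [])
  | m :: w, s => match run w s with
    | (s', l) => match step m s' with
      | (s'', o) => (s'', push o l)

def expand : Gen → List Mv
  | .T => [.A, .R, .R] | .S => [.B, .R, .R] | .r => [.r] | .s => []

def runG (w : List Gen) (s : Raw) : Raw × List Lt := run (w.flatMap expand) s

def ok (s : Raw) : Bool :=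
  s.v0 != s.v1 && s.v0 != s.v2 && s.v0 != s.v3 && s.v0 != s.v4 && s.v1 != s.v2 && s.v1 != s.v3 &&
    s.v1 != s.v4 && s.v2 != s.v3 && s.v2 != s.v4 && s.v3 != s.v4

def allS (f : Raw → Bool) : Bool :=
  l5.all fun v0 => l5.all fun v1 => l5.all fun v2 => l5.all fun v3 => l5.all fun v4 =>
    !ok ⟨v0, v1, v2, v3, v4, .p0, true⟩ ||
      l8.all fun p => f ⟨v0, v1, v2, v3, v4, p, true⟩ && f ⟨v0, v1, v2, v3, v4, p, false⟩

lemma allS_spec {f : Raw → Bool} (h : allS f = true) (s : Raw) (hs : ok s = true) : f s = true := by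
  obtain ⟨v0, v1, v2, v3, v4, p, e⟩ := s
  simp only [allS, List.all_eq_true, Bool.or_eq_true, Bool.and_eq_true] at h
  rcases h v0 (m5 _) v1 (m5 _) v2 (m5 _) v3 (m5 _) v4 (m5 _) with h | h
  · have : ok ⟨v0, v1, v2, v3, v4, .p0, true⟩ = true := hs
    simp [this] at h
  · cases e
    exacts [(h p (m8 _)).2, (h p (m8 _)).1]

/-- Two words act in the same way on the table. -/
def Same (w w' : List Gen) : Prop := ∀ s, ok s = true → runG w s = runG w' s

lemma same_of {w w' : List Gen} (h : allS (fun s => decide (runG w s = runG w' s)) = true) :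
    Same w w' := fun s hs => of_decide_eq_true (allS_spec h s hs)

open Gen in
lemma same1 : Same [T, T, T, T, T, T, T, T] [] := same_of (by decide +kernel)
open Gen in
lemma same2 : Same [T, r, T, r, r, r, r, r] [r, T, r, r, r, r, r, T] := same_of (by decide +kernel)
open Gen in
lemma same3 : Same [r, r, T, r, r, r, r, r, r, r, r, r, r, T] [r, T, r, r, r, r, r] :=
  same_of (by decide +kernel)
open Gen in
lemma same4 : Same [r, r, r, r, r, r] [] := same_of (by decide +kernel)
open Gen in
lemma same5 : Same [S, S] [s, s, s] := same_of (by decide +kernel)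
open Gen in
lemma same6 : Same [S, r, S, r] [s, s, s, s] := same_of (by decide +kernel)
open Gen in
lemma same7 : Same [S, T, S, T, S, T] [s, s, s] := same_of (by decide +kernel)

lemma ok_gen (g : Gen) (s : Raw) (hs : ok s = true) : ok (runG [g] s).1 = true := by
  cases g
  · exact allS_spec (f := fun s => ok (runG [.T] s).1) (by decide +kernel) s hs
  · exact allS_spec (f := fun s => ok (runG [.S] s).1) (by decide +kernel) s hs
  · exact allS_spec (f := fun s => ok (runG [.r] s).1) (by decide +kernel) s hs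
  · exact hs

def s0 : Raw := ⟨.a, .b, .c, .d, .e, .p0, true⟩

open Gen in
def hw : Fin 3 → List Gen
  | 0 => [S, T, r, S, T, T, T, S, T, T, S, T, T, T, r, S, T, S]
  | 1 => [S, T, r, S, T, T, T, T, T, S, T, T, S, T, T, T, T, T, r, S, T, S]
  | 2 => [S, T, r, T, S, T, T, T, T, S, r, T, r, T, T, S]

lemma hw_run : ∀ j, runG (hw j) s0 = (s0, [(j, true)]) := by decide +kernel

section sound
variable {Λ : Type} [Group Λ] (u : Fin 3 → Λ)

def ev (l : Lt) : Λ := if l.2 then u l.1 else (u l.1)⁻¹

def evL (l : List Lt) : Λ := (l.map (ev u)).prod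

def evO : Option Lt → Λ
  | none => 1
  | some l => ev u l

lemma evL_push (o : Option Lt) (w : List Lt) : evL u (push o w) = evO u o * evL u w := by
  rcases o with _ | ⟨j, b⟩
  · simp [push, evO]
  · rcases w with _ | ⟨l', w⟩
    · simp [push, evO, evL]
    · simp only [push]
      split_ifs with h
      · subst h
        cases b <;> simp [evO, evL, ev]
      · simp [evO, evL]

def actM (m : Mv) (z : Raw × Λ) : Raw × Λ := ((step m z.1).1, evO u (step m z.1).2 * z.2)

lemma foldr_actM (w : List Mv) (z : Raw × Λ) :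
    w.foldr (actM u) z = ((run w z.1).1, evL u (run w z.1).2 * z.2) := by
  induction w with
  | nil => simp [run, evL]
  | cons m w ih => simp only [List.foldr_cons, ih, actM, run, evL_push, mul_assoc]

def actG (g : Gen) (z : Raw × Λ) : Raw × Λ := (expand g).foldr (actM u) z

lemma foldr_actG (w : List Gen) (z : Raw × Λ) :
    w.foldr (actG u) z = ((runG w z.1).1, evL u (runG w z.1).2 * z.2) := by
  rw [runG, ← foldr_actM]
  induction w with
  | nil => rfl
  | cons g w ih => rw [List.foldr_cons, ih, List.flatMap_cons, List.foldr_append, actG]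

end sound

end Pool.Agent.Lib.MP_972ec5_co
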