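import Pool.Agent.Lib.MP_972ec5_co.Local
import Pool.Agent.Lib.MP_972ec5_co.Table
import Pool.Agent.Lib.MP_972ec5_co.Elem

/-! The finite actions: rows modulo `N`, the coset table, and voltages in a finite group. -/

namespace Pool.Agent.Lib.MP_972ec5_co

open Equiv Finset

abbrev Q (N : ℕ) := (Ei N × Ei N) × (Ei N × Ei N)

variable {N : ℕ}

def actQ : Gen → Q N → Q N
  | .T, q => (q.1 + q.2, q.2)
  | .S, q => (-q.2, q.1)
  | .r, q => ((ze : Ei N) • q.1, q.2)
  | .s, q => ((ze : Ei N) • q.1, (ze : Ei N) • q.2)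

def q0 : Q N := ((1, 0), (0, 1))

def actI (g : Gen) (i : Q N × Raw) : Q N × Raw := (actQ g i.1, (runG [g] i.2).1)

def In (i : Q N × Raw) : Prop := ∃ w : List Gen, i = w.foldr actI (q0, s0)

def Ind (q : Q N) : Prop := ∀ α β : Ei N, α • q.1 + β • q.2 = 0 → α = 0 ∧ β = 0

lemma ze_cancel {α : Ei N} (h : α * ze = 0) : α = 0 := by
  linear_combination ze ^ 5 * h - α * ze_six (N := N)

lemma In.inv {i : Q N × Raw} (h : In i) : Ind i.1 ∧ ok i.2 = true := by
  obtain ⟨w, rfl⟩ := h
  induction w with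
  | nil => exact ⟨fun α β h => by simpa [q0] using h, rfl⟩
  | cons g w ih =>
    refine ⟨fun α β h => ?_, ok_gen g _ ih.2⟩
    rw [List.foldr_cons] at h
    generalize List.foldr actI (q0, s0) w = i at ih h
    cases g <;> simp only [actI, actQ] at h
    · obtain ⟨h1, h2⟩ := ih.1 α (α + β) (by rw [← h]; module)
      exact ⟨h1, by rwa [h1, zero_add] at h2⟩
    · obtain ⟨h1, h2⟩ := ih.1 β (-α) (by rw [← h]; module)
      exact ⟨neg_eq_zero.1 h2, h1⟩
    · obtain ⟨h1, h2⟩ := ih.1 (α * ze) β (by rw [← h]; module)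
      exact ⟨ze_cancel h1, h2⟩
    · obtain ⟨h1, h2⟩ := ih.1 (α * ze) (β * ze) (by rw [← h]; module)
      exact ⟨ze_cancel h1, ze_cancel h2⟩

lemma actQ_inj (g : Gen) : Function.Injective (actQ g : Q N → Q N) := by
  have z : ∀ a b : Ei N × Ei N, (ze : Ei N) • a = (ze : Ei N) • b → a = b := fun a b h => by
    have := congrArg (fun x => (ze : Ei N) ^ 5 • x) h
    simpa only [smul_smul, ← pow_succ, Nat.reduceAdd, ze_six, one_smul] using this
  rintro ⟨a, b⟩ ⟨c, d⟩ h
  cases g <;> simp only [actQ, Prod.mk.injEq] at h ⊢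
  · obtain ⟨h1, rfl⟩ := h
    exact ⟨add_right_cancel h1, rfl⟩
  · exact ⟨h.2, neg_inj.1 h.1⟩
  · exact ⟨z _ _ h.1, h.2⟩
  · exact ⟨z _ _ h.1, z _ _ h.2⟩

def Y (N : ℕ) (Λ : Type) : Type := {z : Q N × Raw × Λ // In (z.1, z.2.1)}

instance [NeZero N] {Λ : Type} [Finite Λ] : Finite (Y N Λ) := Subtype.finite

variable {Λ : Type} [Group Λ] (u : Fin 3 → Λ)

lemma actG_fst (g : Gen) (z : Raw × Λ) : (actG u g z).1 = (runG [g] z.1).1 :=
  congrArg Prod.fst (foldr_actG u [g] z)

def f (g : Gen) (y : Y N Λ) : Y N Λ :=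
  ⟨(actQ g y.1.1, actG u g y.1.2), by
    obtain ⟨w, hw⟩ := y.2
    exact ⟨g :: w, by rw [List.foldr_cons, ← hw, actG_fst]; rfl⟩⟩

lemma val_fw (w : List Gen) (y : Y N Λ) : (w.foldr (f u) y).1 =
    (w.foldr actQ y.1.1, (runG w y.1.2.1).1, evL u (runG w y.1.2.1).2 * y.1.2.2) := by
  rw [← foldr_actG]
  induction w with
  | nil => rfl
  | cons g w ih => simp only [List.foldr_cons, f, ih]

lemma pr_fw (w : List Gen) (y : Y N Λ) :
    ((w.foldr (f u) y).1.1, (w.foldr (f u) y).1.2.1) = w.foldr actI (y.1.1, y.1.2.1) := by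
  induction w with
  | nil => rfl
  | cons g w ih => rw [List.foldr_cons, List.foldr_cons, ← ih, actI, f, actG_fst]

lemma rel {w w' : List Gen} (hQ : ∀ q : Q N, w.foldr actQ q = w'.foldr actQ q) (hS : Same w w')
    (y : Y N Λ) : w.foldr (f u) y = w'.foldr (f u) y :=
  Subtype.ext (by rw [val_fw, val_fw, hQ, hS _ y.2.inv.2])

lemma f_inj (g : Gen) : Function.Injective (f u g : Y N Λ → Y N Λ) := fun y y' h => by
  have h1 : actQ g y.1.1 = actQ g y'.1.1 := congrArg (fun z : Y N Λ => z.1.1) h
  have h2 : actG u g y.1.2 = actG u g y'.1.2 := congrArg (fun z : Y N Λ => z.1.2) h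
  obtain ⟨w, hw⟩ : ∃ w, Same (w ++ [g]) [] := by
    cases g
    exacts [⟨List.replicate 7 .T, same1⟩, ⟨[.S], same5⟩, ⟨List.replicate 5 .r, same4⟩,
      ⟨[], fun _ _ => rfl⟩]
  have key : ∀ z : Y N Λ, w.foldr (actG u) (actG u g z.1.2) = z.1.2 := fun z => by
    have := foldr_actG u (w ++ [g]) z.1.2
    rw [List.foldr_append, hw _ z.2.inv.2] at this
    simpa [runG, run, evL] using this
  exact Subtype.ext (Prod.ext (actQ_inj g h1) (by rw [← key y, h2, key]))

variable [NeZero N] [Finite Λ]

noncomputable def P (g : Gen) : Perm (Y N Λ) :=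
  Equiv.ofBijective (f u g) (Finite.injective_iff_bijective.1 (f_inj u g))

noncomputable def W (w : List Gen) : Perm (Y N Λ) := (w.map (P u)).prod

lemma W_apply (w : List Gen) (y : Y N Λ) : W u w y = w.foldr (f u) y := by
  induction w with
  | nil => rfl
  | cons g w ih => rw [List.foldr_cons, ← ih, W, List.map_cons, List.prod_cons]; rfl

lemma relP {w w' : List Gen} (hS : Same w w')
    (hQ : ∀ a b : Ei N × Ei N, w.foldr actQ (a, b) = w'.foldr actQ (a, b)) :
    (W u w : Perm (Y N Λ)) = W u w' :=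
  Equiv.ext fun y => by rw [W_apply, W_apply, rel u (fun q => hQ q.1 q.2) hS]

lemma PT_pow (h8 : 8 ∣ N) : (P u .T : Perm (Y N Λ)) ^ N = 1 := by
  have h1 : ∀ (n : ℕ) (y : Y N Λ), ((P u .T ^ n) y).1.1 = (y.1.1.1 + n • y.1.1.2, y.1.1.2) := by
    intro n y
    induction n with
    | zero => simp
    | succ n ih =>
      rw [pow_succ', Perm.mul_apply]
      change actQ .T _ = _
      rw [ih, actQ, succ_nsmul, add_assoc]
  have h2 : ∀ (y : Y N Λ), ((P u .T ^ 8) y).1.2 = y.1.2 := fun y => by
    have := congrArg Prod.snd (val_fw u (List.replicate 8 .T) y)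
    rw [← W_apply, W, List.map_replicate, List.prod_replicate] at this
    rw [this, show List.replicate 8 Gen.T = [.T, .T, .T, .T, .T, .T, .T, .T] from rfl,
      same1 _ y.2.inv.2]
    simp [runG, run, evL]
  have h3 : ∀ (n : ℕ) (y : Y N Λ), ((P u .T ^ (8 * n)) y).1.2 = y.1.2 := fun n y => by
    induction n with
    | zero => rfl
    | succ n ih => rw [mul_add, add_comm, pow_add, Perm.mul_apply, h2, ih]
  refine Equiv.ext fun y => Subtype.ext (Prod.ext ?_ ?_)
  · have : ((N : ℕ) : Ei N) = 0 := by ext <;> simp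
    rw [h1, ← Nat.cast_smul_eq_nsmul (Ei N), this, zero_smul, add_zero]
    rfl
  · have := h3 (N / 8) y
    rwa [Nat.mul_div_cancel' h8] at this

open Gen in
noncomputable def setup (h8 : 8 ∣ N) : Setup N (Y N Λ) :=
  have hz := ze_sq (N := N)
  have r6 : (P u r : Perm (Y N Λ)) ^ 6 = 1 := by
    simpa [W, pow_succ, mul_assoc] using relP u same4 fun a b => by
      simp only [List.foldr, actQ, Prod.mk.injEq, and_true]
      match_scalars; grind
  have ri : (P u r : Perm (Y N Λ))⁻¹ = P u r ^ 5 :=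
    inv_eq_of_mul_eq_one_right (by rw [← pow_succ', r6])
  { T := P u T
    ρ := P u r
    σ := P u s
    S := P u S
    r1 := fun y => y.1.1.1
    r2 := fun y => y.1.1.2
    h8 := h8
    hT := PT_pow u h8
    hTU := by
      rw [ri]
      simpa [W, pow_succ, mul_assoc] using relP u same2 fun a b => by
        simp only [List.foldr, actQ, Prod.mk.injEq, and_true]
        match_scalars <;> grind
    hρU := by
      rw [ri]
      simpa [W, pow_succ, mul_assoc] using relP u same3 fun a b => by
        simp only [List.foldr, actQ, Prod.mk.injEq, and_true]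
        match_scalars <;> grind
    σT := by
      simpa [W, commute_iff_eq] using relP u (w := [s, T]) (w' := [T, s]) (fun _ _ => rfl) fun a b => by
        simp only [List.foldr, actQ, smul_add]
    σρ := by
      simpa [W, commute_iff_eq] using relP u (w := [s, r]) (w' := [r, s]) (fun _ _ => rfl) fun a b => rfl
    σS := by
      simpa [W, commute_iff_eq] using relP u (w := [s, S]) (w' := [S, s]) (fun _ _ => rfl) fun a b => by
        simp only [List.foldr, actQ, smul_neg]
    ρ6 := r6
    σ6 := by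
      simpa [W, pow_succ, mul_assoc] using relP u (w := [s, s, s, s, s, s]) (w' := [])
        (fun _ _ => rfl) fun a b => by
        simp only [List.foldr, actQ, Prod.mk.injEq]
        constructor <;> match_scalars <;> grind
    SS := by
      simpa [W, pow_succ, mul_assoc] using relP u same5 fun a b => by
        simp only [List.foldr, actQ, Prod.mk.injEq]
        constructor <;> match_scalars <;> grind
    Sρ := by
      simpa [W, pow_succ, mul_assoc] using relP u same6 fun a b => by
        simp only [List.foldr, actQ, Prod.mk.injEq]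
        constructor <;> match_scalars <;> grind
    ST := by
      simpa [W, pow_succ, mul_assoc] using relP u same7 fun a b => by
        simp only [List.foldr, actQ, Prod.mk.injEq]
        constructor <;> match_scalars <;> grind
    T1 := fun _ => rfl
    T2 := fun _ => rfl
    ρ1 := fun _ => rfl
    ρ2 := fun _ => rfl
    σ2 := fun _ => rfl
    S1 := fun _ => rfl
    S2 := fun _ => rfl
    ind := fun y => y.2.inv.1 }

end Pool.Agent.Lib.MP_972ec5_co
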