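import Mathlib

/-! A uniform Poincare inequality on a finite group generated by three subgroups of prime order
`p ≥ 16` any two of which generate a quotient of the Heisenberg group mod `p`. -/

namespace Pool.Agent.Lib.MP_972ec5_co

open Finset Matrix

variable {Λ : Type} [Group Λ] [Fintype Λ] {p : ℕ} [Fact p.Prime]

def Hom (x : ZMod p → Λ) : Prop := ∀ i j, x (i + j) = x i * x j

def Fix (x : ZMod p → Λ) (f : Λ → ℝ) : Prop := ∀ i ξ, f (x i * ξ) = f ξ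

noncomputable def Av (x : ZMod p → Λ) : (Λ → ℝ) →ₗ[ℝ] (Λ → ℝ) where
  toFun f := fun ξ => (p : ℝ)⁻¹ * ∑ i, f (x i * ξ)
  map_add' f g := by ext ξ; simp [sum_add_distrib, mul_add]
  map_smul' c f := by ext ξ; simp [← mul_sum]; ring

omit [Fintype Λ] in
lemma Av_apply (x : ZMod p → Λ) (f : Λ → ℝ) (ξ : Λ) :
    Av x f ξ = (p : ℝ)⁻¹ * ∑ i, f (x i * ξ) := rfl

omit [Fintype Λ] in
lemma Hom.zero {x : ZMod p → Λ} (hx : Hom x) : x 0 = 1 := by
  have := hx 0 0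
  rw [add_zero] at this
  exact left_eq_mul.1 this

lemma p_pos : (0 : ℝ) < p := by exact_mod_cast (Fact.out : p.Prime).pos

omit [Fintype Λ] in
lemma Av_fix {x : ZMod p → Λ} (hx : Hom x) (f : Λ → ℝ) : Fix x (Av x f) := fun j ξ => by
  simp only [Av_apply, ← mul_assoc, ← hx _ j]
  rw [Equiv.sum_comp (Equiv.addRight j) (fun i => f (x i * ξ)) |>.symm]
  rfl

omit [Fintype Λ] in
lemma Av_of_fix {x : ZMod p → Λ} {f : Λ → ℝ} (hf : Fix x f) : Av x f = f := by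
  ext ξ
  have := p_pos (p := p)
  simp only [Av_apply, hf _ ξ, sum_const, card_univ, ZMod.card, nsmul_eq_mul]
  field_simp

lemma shift_sum (g : Λ) (F : Λ → ℝ) : ∑ ξ, F (g * ξ) = ∑ ξ, F ξ :=
  Equiv.sum_comp (Equiv.mulLeft g) F

lemma Av_symm {x : ZMod p → Λ} (hx : Hom x) (f g : Λ → ℝ) : Av x f ⬝ᵥ g = f ⬝ᵥ Av x g := by
  simp only [dotProduct, Av_apply, mul_sum, sum_mul]
  rw [sum_comm, sum_comm (s := univ) (t := (univ : Finset (ZMod p)))]
  rw [← Equiv.sum_comp (Equiv.neg (ZMod p))]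
  refine sum_congr rfl fun i _ => ?_
  rw [← shift_sum (x i)]
  refine sum_congr rfl fun ξ _ => ?_
  rw [Equiv.neg_apply, ← mul_assoc (x (-i)), ← hx, neg_add_cancel, hx.zero, one_mul]
  ring

omit [Group Λ] in
lemma dot_nonneg (f : Λ → ℝ) : 0 ≤ f ⬝ᵥ f := sum_nonneg fun _ _ => mul_self_nonneg _

lemma orth {x : ZMod p → Λ} (hx : Hom x) (v : Λ → ℝ) {u : Λ → ℝ} (hu : Fix x u) :
    (v - Av x v) ⬝ᵥ u = 0 := by
  rw [sub_dotProduct, Av_symm hx, Av_of_fix hu, sub_self]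

lemma Av_dot {x : ZMod p → Λ} (hx : Hom x) (u : Λ → ℝ) : Av x u ⬝ᵥ Av x u = Av x u ⬝ᵥ u := by
  rw [← Av_symm hx, Av_of_fix (Av_fix hx u)]

/-- Heisenberg relations. -/
structure Heis (x y c : ZMod p → Λ) : Prop where
  hx : Hom x
  hy : Hom y
  hc : Hom c
  cx : ∀ i k, c k * x i = x i * c k
  cy : ∀ j k, c k * y j = y j * c k
  rel : ∀ i j, y j * x i = x i * c (i * j) * y j

lemma Heis.angle {x y c : ZMod p → Λ} (h : Heis x y c) {u : Λ → ℝ} (hu : Fix x u)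
    (h0 : Av y (Av c u) = 0) : Av y u ⬝ᵥ u ≤ (p : ℝ)⁻¹ * (u ⬝ᵥ u) := by
  have hp := p_pos (p := p)
  have key : ∀ j, j ≠ 0 → ∑ ξ, u (y j * ξ) * u ξ = ∑ ξ, Av c u (y j * ξ) * u ξ := fun j hj => by
    have h1 : ∀ i, ∑ ξ, u (c (i * j) * (y j * ξ)) * u ξ = ∑ ξ, u (y j * ξ) * u ξ := fun i => by
      rw [← shift_sum (x i) (fun ξ => u (y j * ξ) * u ξ)]
      refine sum_congr rfl fun ξ _ => ?_
      rw [← mul_assoc (y j), h.rel, mul_assoc, mul_assoc, hu, hu]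
    simp only [Av_apply, mul_assoc, sum_mul]
    rw [← mul_sum, sum_comm,
      ← Equiv.sum_comp (Equiv.mulRight₀ j hj) (fun k => ∑ ξ, u (c k * (y j * ξ)) * u ξ)]
    simp only [Equiv.mulRight₀_apply, h1, sum_const, card_univ, ZMod.card, nsmul_eq_mul]
    field_simp
  have e1 : ∀ w : Λ → ℝ, Av y w ⬝ᵥ u = (p : ℝ)⁻¹ * ∑ j, ∑ ξ, w (y j * ξ) * u ξ := fun w => by
    simp only [dotProduct, Av_apply, mul_assoc, sum_mul]
    rw [← mul_sum, sum_comm]
  have e2 := e1 (Av c u)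
  rw [h0, zero_dotProduct, ← add_sum_erase _ _ (mem_univ 0)] at e2
  rw [e1, ← add_sum_erase _ _ (mem_univ 0),
    sum_congr rfl fun j hj => key j (ne_of_mem_erase hj)]
  simp only [h.hy.zero, one_mul] at e2 ⊢
  have e3 : 0 ≤ ∑ ξ, Av c u ξ * u ξ := by
    have := dot_nonneg (Av c u)
    rwa [Av_dot h.hc] at this
  have e4 := (mul_eq_zero.1 e2.symm).resolve_left (by positivity)
  refine mul_le_mul_of_nonneg_left ?_ (by positivity)
  unfold dotProduct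
  linarith

omit [Group Λ] in
lemma two_vec (v a b : Λ → ℝ) (ha : (v - a) ⬝ᵥ a = 0) (hb : (v - b) ⬝ᵥ b = 0)
    (hab : 2 * (a ⬝ᵥ b) ≤ (a ⬝ᵥ a + b ⬝ᵥ b) / 4) :
    -((v - a) ⬝ᵥ (v - a) + (v - b) ⬝ᵥ (v - b)) / 4 ≤ 2 * ((v - a) ⬝ᵥ (v - b)) := by
  have h : 0 ≤ (v - (4 / 5 : ℝ) • a - (4 / 5 : ℝ) • b) ⬝ᵥ (v - (4 / 5 : ℝ) • a - (4 / 5 : ℝ) • b) :=
    sum_nonneg fun _ _ => mul_self_nonneg _
  simp only [sub_dotProduct, dotProduct_sub, smul_dotProduct, dotProduct_smul, smul_eq_mul] at *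
  rw [dotProduct_comm a v, dotProduct_comm b v, dotProduct_comm b a] at *
  linarith

lemma Heis.pair {x y c : ZMod p → Λ} (h : Heis x y c) (hp : 16 ≤ p) (v : Λ → ℝ) :
    -((v - Av x v) ⬝ᵥ (v - Av x v) + (v - Av y v) ⬝ᵥ (v - Av y v)) / 4 ≤
      2 * ((v - Av x v) ⬝ᵥ (v - Av y v)) := by
  set w := Av c (Av x v)
  have wc : Fix c w := Av_fix h.hc _
  have wx : Fix x w := fun i ξ => by
    simp only [w, Av_apply c, ← mul_assoc, h.cx]
    simp only [mul_assoc, Av_fix h.hx v i]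
  set E := Av y w
  have Ey : Fix y E := Av_fix h.hy _
  have Ex : Fix x E := fun i ξ => by
    simp only [E, Av_apply y, ← mul_assoc, h.rel]
    simp only [mul_assoc, wx i, wc _]
  have Ec : Fix c E := fun k ξ => by
    simp only [E, Av_apply y, ← mul_assoc, ← h.cy]
    simp only [mul_assoc, wc _]
  set a := Av x v - E
  set b := Av y v - E
  have ax : Fix x a := fun i ξ => by simp only [a, Pi.sub_apply, Ex i ξ, Av_fix h.hx v i ξ]
  have hy : Fix y b := fun i ξ => by simp only [b, Pi.sub_apply, Ey i ξ, Av_fix h.hy v i ξ]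
  have ea : v - E - a = v - Av x v := by simp [a]
  have eb : v - E - b = v - Av y v := by simp [b]
  have h0 : Av y (Av c a) = 0 := by
    simp only [a, map_sub, Av_of_fix Ec, Av_of_fix Ey]
    exact sub_self _
  have h1 := h.angle ax h0
  rw [← Av_dot h.hy] at h1
  have h2 : (p : ℝ)⁻¹ * (a ⬝ᵥ a) ≤ 16⁻¹ * (a ⬝ᵥ a) :=
    mul_le_mul_of_nonneg_right (inv_anti₀ (by norm_num) (by exact_mod_cast hp)) (dot_nonneg a)
  have h3 : a ⬝ᵥ b = Av y a ⬝ᵥ b := by rw [Av_symm h.hy, Av_of_fix hy]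
  have h4 := dot_nonneg ((2 : ℝ) • Av y a - (1 / 2 : ℝ) • b)
  simp only [sub_dotProduct, dotProduct_sub, smul_dotProduct, dotProduct_smul, smul_eq_mul] at h4
  rw [dotProduct_comm b (Av y a)] at h4
  have := two_vec (v - E) a b (by rw [ea]; exact orth h.hx v ax) (by rw [eb]; exact orth h.hy v hy)
    (by linarith)
  rwa [ea, eb] at this

lemma q_le (x : ZMod p → Λ) (v : Λ → ℝ) :
    (v - Av x v) ⬝ᵥ (v - Av x v) ≤ ∑ i, ∑ ξ, (v (x i * ξ) - v ξ) ^ 2 := by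
  have hp := p_pos (p := p)
  have hp1 : (1 : ℝ) ≤ p := by exact_mod_cast (Fact.out : p.Prime).pos
  rw [sum_comm]
  refine sum_le_sum fun ξ _ => ?_
  have e : (v - Av x v) ξ = -((p : ℝ)⁻¹ * ∑ i, (v (x i * ξ) - v ξ)) := by
    simp only [Pi.sub_apply, Av_apply, sum_sub_distrib, sum_const, card_univ, ZMod.card,
      nsmul_eq_mul]
    field_simp
    ring
  have h := sq_sum_le_card_mul_sum_sq (s := univ) (f := fun i => v (x i * ξ) - v ξ)
  rw [card_univ, ZMod.card] at h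
  have h0 : 0 ≤ ∑ i, (v (x i * ξ) - v ξ) ^ 2 := sum_nonneg fun _ _ => sq_nonneg _
  rw [e, neg_mul_neg, ← sq, mul_pow, inv_pow, inv_mul_le_iff₀ (by positivity)]
  nlinarith [mul_nonneg (mul_nonneg hp.le (sub_nonneg.2 hp1)) h0]

theorem heis_poin {x y z c d e : ZMod p → Λ} (h1 : Heis x y c) (h2 : Heis y z d) (h3 : Heis z x e)
    (hp : 16 ≤ p) (gen : ∀ f : Λ → ℝ, Fix x f → Fix y f → Fix z f → ∀ ξ, f ξ = f 1)
    (φ : Λ → ℝ) : ∃ μ : ℝ, ∑ ξ, (φ ξ - μ) ^ 2 ≤ 2 * (∑ i, ∑ ξ, (φ (x i * ξ) - φ ξ) ^ 2 +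
      ∑ i, ∑ ξ, (φ (y i * ξ) - φ ξ) ^ 2 + ∑ i, ∑ ξ, (φ (z i * ξ) - φ ξ) ^ 2) := by
  have hn : (0 : ℝ) < Fintype.card Λ := by exact_mod_cast Fintype.card_pos
  let J : (Λ → ℝ) →ₗ[ℝ] (Λ → ℝ) :=
    { toFun := fun f _ => ∑ ξ, f ξ
      map_add' := fun f g => by ext; simp [sum_add_distrib]
      map_smul' := fun c f => by ext; simp [mul_sum] }
  let T : (Λ → ℝ) →ₗ[ℝ] (Λ → ℝ) :=
    (LinearMap.id - Av x) + (LinearMap.id - Av y) + (LinearMap.id - Av z) + J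
  have hT : ∀ w, T w = (w - Av x w) + (w - Av y w) + (w - Av z w) + fun _ => ∑ ξ, w ξ :=
    fun w => rfl
  have qq : ∀ {t : ZMod p → Λ}, Hom t → ∀ w v : Λ → ℝ,
      (w - Av t w) ⬝ᵥ v = (w - Av t w) ⬝ᵥ (v - Av t v) := fun ht w v => by
    rw [dotProduct_sub, orth ht w (Av_fix ht v), sub_zero]
  have fx : ∀ {t : ZMod p → Λ}, Hom t → ∀ w : Λ → ℝ, (w - Av t w) ⬝ᵥ (w - Av t w) = 0 →
      Fix t w := fun ht w h => by
    rw [sub_eq_zero.1 (dotProduct_self_eq_zero.1 h)]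
    exact Av_fix ht w
  have inj : Function.Injective T := by
    rw [injective_iff_map_eq_zero]
    intro w hw
    have : T w ⬝ᵥ w = 0 := by rw [hw, zero_dotProduct]
    rw [hT, add_dotProduct, add_dotProduct, add_dotProduct, qq h1.hx, qq h2.hx, qq h3.hx] at this
    have e : (fun _ : Λ => ∑ ξ, w ξ) ⬝ᵥ w = (∑ ξ, w ξ) ^ 2 := by
      simp only [dotProduct, ← mul_sum, sq]
    have a1 := dot_nonneg (w - Av x w)
    have a2 := dot_nonneg (w - Av y w)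
    have a3 := dot_nonneg (w - Av z w)
    have a4 := sq_nonneg (∑ ξ, w ξ)
    have hc := gen w (fx h1.hx w (by linarith)) (fx h2.hx w (by linarith))
      (fx h3.hx w (by linarith))
    have hs : ∑ ξ, w ξ = 0 := pow_eq_zero_iff (two_ne_zero) |>.1 (by linarith)
    simp only [hc, sum_const, card_univ, nsmul_eq_mul] at hs
    ext ξ
    rw [hc, (mul_eq_zero.1 hs).resolve_left hn.ne']
    rfl
  set μ := (∑ ξ, φ ξ) / Fintype.card Λ
  set v : Λ → ℝ := fun ξ => φ ξ - μ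
  have hv : ∑ ξ, v ξ = 0 := by
    simp only [v, sum_sub_distrib, sum_const, card_univ, nsmul_eq_mul, μ]
    field_simp
    ring
  obtain ⟨w, hw⟩ := LinearMap.injective_iff_surjective.1 inj v
  have one : ∀ t : ZMod p → Λ, Fix t (fun _ => (1 : ℝ)) := fun _ _ _ => rfl
  have hs : ∑ ξ, w ξ = 0 := by
    have : T w ⬝ᵥ (fun _ => 1) = v ⬝ᵥ (fun _ => 1) := by rw [hw]
    rw [hT, add_dotProduct, add_dotProduct, add_dotProduct, orth h1.hx w (one x),
      orth h2.hx w (one y), orth h3.hx w (one z)] at this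
    simp only [dotProduct, mul_one, hv, sum_const, card_univ, nsmul_eq_mul, zero_add] at this
    exact (mul_eq_zero.1 this).resolve_left hn.ne'
  rw [hT, hs] at hw
  have hw' : v = (w - Av x w) + (w - Av y w) + (w - Av z w) := by
    rw [← hw]; ext; simp
  have p1 := h1.pair hp w
  have p2 := h2.pair hp w
  have p3 := h3.pair hp w
  have cs : ∀ a b : Λ → ℝ, a ⬝ᵥ b ≤ a ⬝ᵥ a / 4 + b ⬝ᵥ b := fun a b => by
    have := dot_nonneg ((1 / 2 : ℝ) • a - b)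
    simp only [sub_dotProduct, dotProduct_sub, smul_dotProduct, dotProduct_smul,
      smul_eq_mul] at this
    rw [dotProduct_comm b a] at this
    linarith
  have c1 := cs (w - Av x w) (v - Av x v)
  have c2 := cs (w - Av y w) (v - Av y v)
  have c3 := cs (w - Av z w) (v - Av z v)
  rw [← qq h1.hx] at c1
  rw [← qq h2.hx] at c2
  rw [← qq h3.hx] at c3
  have q1 := q_le x v
  have q2 := q_le y v
  have q3 := q_le z v
  simp only [v, sub_sub_sub_cancel_right] at q1 q2 q3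
  refine ⟨μ, ?_⟩
  have e0 : ∑ ξ, (φ ξ - μ) ^ 2 = v ⬝ᵥ v := by simp only [dotProduct, v, sq]
  generalize w - Av x w = a at *
  generalize w - Av y w = b at *
  generalize w - Av z w = g at *
  have e1 : v ⬝ᵥ v = a ⬝ᵥ v + b ⬝ᵥ v + g ⬝ᵥ v := by
    rw [← add_dotProduct, ← add_dotProduct, ← hw']
  have e2 : v ⬝ᵥ v = a ⬝ᵥ a + b ⬝ᵥ b + g ⬝ᵥ g + 2 * (a ⬝ᵥ b) + 2 * (b ⬝ᵥ g) + 2 * (g ⬝ᵥ a) := by
    rw [hw']
    simp only [add_dotProduct, dotProduct_add]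
    rw [dotProduct_comm b a, dotProduct_comm g b, dotProduct_comm a g]
    ring
  rw [e0]
  linarith

end Pool.Agent.Lib.MP_972ec5_co
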