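import Pool.Agent.Lib.MP_972ec5_co.Eis

/-! The graph of an action satisfying the relations of the level `N` quotient of `GL₂` of the
Eisenstein integers, and its links. -/

namespace Pool.Agent.Lib.MP_972ec5_co

open SimpleGraph Equiv Finset

structure Setup (N : ℕ) (Y : Type) where
  T : Perm Y
  ρ : Perm Y
  σ : Perm Y
  S : Perm Y
  r1 : Y → Ei N × Ei N
  r2 : Y → Ei N × Ei N
  h8 : 8 ∣ N
  hT : T ^ N = 1
  hTU : T * (ρ * T * ρ⁻¹) = ρ * T * ρ⁻¹ * T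
  hρU : ρ * (ρ * T * ρ⁻¹) * ρ⁻¹ * T = ρ * T * ρ⁻¹
  σT : Commute σ T
  σρ : Commute σ ρ
  σS : Commute σ S
  ρ6 : ρ ^ 6 = 1
  σ6 : σ ^ 6 = 1
  SS : S * S = σ ^ 3
  Sρ : S * ρ * S * ρ = σ ^ 4
  ST : S * T * S * T * S * T = σ ^ 3
  T1 : ∀ y, r1 (T y) = r1 y + r2 y
  T2 : ∀ y, r2 (T y) = r2 y
  ρ1 : ∀ y, r1 (ρ y) = (ze : Ei N) • r1 y
  ρ2 : ∀ y, r2 (ρ y) = r2 y
  σ2 : ∀ y, r2 (σ y) = (ze : Ei N) • r2 y
  S1 : ∀ y, r1 (S y) = -r2 y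
  S2 : ∀ y, r2 (S y) = r1 y
  ind : ∀ y (α β : Ei N), α • r1 y + β • r2 y = 0 → α = 0 ∧ β = 0

namespace Setup

variable {N : ℕ} [NeZero N] {Y : Type} (X : Setup N Y)

lemma ex : ∃ t : Ei N → Perm Y, (∀ a b, t (a + b) = t a * t b) ∧ t 1 = X.T ∧
    t ze = X.ρ * X.T * X.ρ⁻¹ :=
  exists_t (by have := Nat.le_of_dvd (NeZero.pos N) X.h8; omega) X.hT
    (by rw [conj_pow, X.hT]; simp) X.hTU

noncomputable def t : Ei N → Perm Y := X.ex.choose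

lemma t_add (a b : Ei N) : X.t (a + b) = X.t a * X.t b := X.ex.choose_spec.1 a b
lemma t_one : X.t 1 = X.T := X.ex.choose_spec.2.1
lemma t_ze : X.t ze = X.ρ * X.T * X.ρ⁻¹ := X.ex.choose_spec.2.2
lemma t_zero : X.t 0 = 1 := by
  have := X.t_add 0 0
  rw [add_zero] at this
  exact left_eq_mul.1 this
lemma t_neg (a : Ei N) : X.t (-a) = (X.t a)⁻¹ :=
  eq_inv_of_mul_eq_one_left (by rw [← t_add, neg_add_cancel, t_zero])

lemma ρ_t (a : Ei N) : X.ρ * X.t a = X.t (ze * a) * X.ρ := by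
  induction a using Ei_ind with
  | h0 => simp [t_zero]
  | h1 a ih => rw [mul_add, mul_one, t_add, t_add, ← mul_assoc, ih, t_one, t_ze]; group
  | h2 a ih =>
    rw [show ze * (a + ze) = ze * a + (ze + -1) by linear_combination ze_sq (N := N), t_add, t_add,
      t_add, t_neg, ← mul_assoc, ih, t_one, t_ze, ← eq_mul_inv_of_mul_eq X.hρU]
    group

lemma σ_t (a : Ei N) : Commute X.σ (X.t a) := by
  induction a using Ei_ind with
  | h0 => simp [t_zero]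
  | h1 a ih => rw [t_add, t_one]; exact ih.mul_right X.σT
  | h2 a ih => rw [t_add, t_ze]; exact ih.mul_right ((X.σρ.mul_right X.σT).mul_right X.σρ.inv_right)

lemma r_t (a : Ei N) : ∀ y, X.r1 (X.t a y) = X.r1 y + a • X.r2 y ∧ X.r2 (X.t a y) = X.r2 y := by
  induction a using Ei_ind with
  | h0 => simp [t_zero]
  | h1 a ih =>
    intro y
    rw [t_add, t_one, Perm.mul_apply, (ih _).1, (ih _).2, X.T1, X.T2, add_smul, one_smul]
    exact ⟨by abel, rfl⟩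
  | h2 a ih =>
    intro y
    obtain ⟨z, rfl⟩ := X.ρ.surjective y
    rw [t_add, t_ze, Perm.mul_apply, (ih _).1, (ih _).2]
    simp only [Perm.mul_apply, Perm.coe_inv, symm_apply_apply, X.ρ1, X.ρ2, X.T1, X.T2, add_smul,
      smul_add, and_true]
    abel

lemma ρp_t (k : ℕ) (a : Ei N) : X.ρ ^ k * X.t a = X.t (ze ^ k * a) * X.ρ ^ k := by
  induction k with
  | zero => simp
  | succ k ih =>
    rw [pow_succ', mul_assoc, ih, ← mul_assoc, ρ_t, pow_succ', mul_assoc, mul_assoc]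

lemma t_ρp (k : ℕ) (a : Ei N) : X.t a * X.ρ ^ k = X.ρ ^ k * X.t (ze ^ (5 * k) * a) := by
  rw [ρp_t, ← mul_assoc, mul_comm (ze ^ k), ze_inv, one_mul]

lemma mulB (i j k l : ℕ) (a b : Ei N) :
    X.ρ ^ i * X.σ ^ j * X.t a * (X.ρ ^ k * X.σ ^ l * X.t b) =
      X.ρ ^ (i + k) * X.σ ^ (j + l) * X.t (ze ^ (5 * k) * a + b) := by
  calc _ = X.ρ ^ i * X.σ ^ j * (X.t a * X.ρ ^ k) * X.σ ^ l * X.t b := by simp only [mul_assoc]
    _ = X.ρ ^ i * (X.σ ^ j * X.ρ ^ k) * (X.t (ze ^ (5 * k) * a) * X.σ ^ l) * X.t b := by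
      rw [t_ρp]; simp only [mul_assoc]
    _ = _ := by
      rw [(X.σρ.pow_pow j k).eq, ← ((X.σ_t _).pow_left l).eq, pow_add, pow_add, t_add]
      simp only [mul_assoc]

def B : Subgroup (Perm Y) where
  carrier := {g | ∃ i j a, g = X.ρ ^ i * X.σ ^ j * X.t a}
  one_mem' := ⟨0, 0, 0, by simp [t_zero]⟩
  mul_mem' := by
    rintro _ _ ⟨i, j, a, rfl⟩ ⟨k, l, b, rfl⟩
    exact ⟨_, _, _, X.mulB ..⟩
  inv_mem' := by
    rintro _ ⟨i, j, a, rfl⟩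
    refine ⟨5 * i, 5 * j, -(ze ^ (5 * (5 * i)) * a), inv_eq_of_mul_eq_one_right ?_⟩
    rw [mulB, add_neg_cancel, t_zero, show i + 5 * i = 6 * i by ring,
      show j + 5 * j = 6 * j by ring, pow_mul, pow_mul, X.ρ6, X.σ6]
    simp

lemma ρ_mem : X.ρ ∈ X.B := ⟨1, 0, 0, by simp [t_zero]⟩
lemma σ_mem : X.σ ∈ X.B := ⟨0, 1, 0, by simp [t_zero]⟩
lemma t_mem (a : Ei N) : X.t a ∈ X.B := ⟨0, 0, a, by simp⟩

def st : Setoid Y where
  r y y' := ∃ b ∈ X.B, b y = y'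
  iseqv := ⟨fun y => ⟨1, X.B.one_mem, rfl⟩,
    fun ⟨b, hb, h⟩ => ⟨b⁻¹, X.B.inv_mem hb, by rw [← h]; simp⟩,
    fun ⟨b, hb, h⟩ ⟨c, hc, h'⟩ => ⟨c * b, X.B.mul_mem hc hb, by rw [← h', ← h]; rfl⟩⟩

/-- The vertex set. -/
def V : Type := Quotient X.st

instance [Finite Y] : Finite X.V := Quotient.finite _

def cl (y : Y) : X.V := Quotient.mk X.st y

lemma cl_surj : Function.Surjective X.cl := Quotient.mk_surjective
lemma cl_eq {y y' : Y} : X.cl y = X.cl y' ↔ ∃ b ∈ X.B, b y = y' := Quotient.eq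
lemma cl_B {b : Perm Y} (hb : b ∈ X.B) (y : Y) : X.cl (b y) = X.cl y :=
  (X.cl_eq.2 ⟨b, hb, rfl⟩).symm

lemma r2_cl {y y' : Y} (h : X.cl y = X.cl y') : ∃ j : ℕ, X.r2 y' = (ze : Ei N) ^ j • X.r2 y := by
  obtain ⟨_, ⟨i, j, a, rfl⟩, rfl⟩ := X.cl_eq.1 h
  have h1 : ∀ (i : ℕ) z, X.r2 ((X.ρ ^ i) z) = X.r2 z := fun i z => by
    induction i with
    | zero => rfl
    | succ i ih => rw [pow_succ', Perm.mul_apply, X.ρ2, ih]
  have h2 : ∀ (i : ℕ) z, X.r2 ((X.σ ^ i) z) = (ze : Ei N) ^ i • X.r2 z := fun i z => by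
    induction i with
    | zero => simp
    | succ i ih => rw [pow_succ', Perm.mul_apply, X.σ2, ih, pow_succ', mul_smul]
  exact ⟨j, by rw [Perm.mul_apply, Perm.mul_apply, h1, h2, (X.r_t a y).2]⟩

lemma cl_Sρ (i : ℕ) (z : Y) : X.cl (X.S ((X.ρ ^ i) z)) = X.cl (X.S z) := by
  induction i with
  | zero => rfl
  | succ i ih =>
    have h : X.S * X.ρ = X.σ ^ 4 * X.ρ⁻¹ * (X.σ ^ 3)⁻¹ * X.S := by rw [← X.SS, ← X.Sρ]; group
    rw [← ih, pow_succ', Perm.mul_apply, ← Perm.mul_apply X.S, h, Perm.mul_apply]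
    exact X.cl_B (X.B.mul_mem (X.B.mul_mem (X.B.pow_mem X.σ_mem _) (X.B.inv_mem X.ρ_mem))
      (X.B.inv_mem (X.B.pow_mem X.σ_mem _))) _

lemma cl_Sσ (i : ℕ) (z : Y) : X.cl (X.S ((X.σ ^ i) z)) = X.cl (X.S z) := by
  rw [← Perm.mul_apply X.S, ← (X.σS.pow_left i).eq, Perm.mul_apply]
  exact X.cl_B (X.B.pow_mem X.σ_mem _) _

def G : SimpleGraph X.V where
  Adj u v := ∃ y, u = X.cl y ∧ v = X.cl (X.S y)
  symm := ⟨by
    rintro _ _ ⟨y, rfl, rfl⟩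
    refine ⟨X.S y, rfl, ?_⟩
    rw [← Perm.mul_apply, X.SS, X.cl_B (X.B.pow_mem X.σ_mem _)]⟩
  loopless := ⟨by
    rintro _ ⟨y, rfl, h⟩
    obtain ⟨j, hj⟩ := X.r2_cl h
    rw [X.S2] at hj
    have := (X.ind y 1 (-ze ^ j) (by rw [hj]; simp)).1
    exact ze_pow_ne X.h8 0 (by simpa using this)⟩

noncomputable def ν (y : Y) (a : Ei N) : X.V := X.cl (X.S (X.t a y))

lemma adj_iff (y : Y) (v : X.V) : X.G.Adj (X.cl y) v ↔ ∃ a, v = X.ν y a := by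
  constructor
  · rintro ⟨y', h, rfl⟩
    obtain ⟨_, ⟨i, j, a, rfl⟩, rfl⟩ := X.cl_eq.1 h
    exact ⟨a, by rw [Perm.mul_apply, Perm.mul_apply, cl_Sρ, cl_Sσ, ν]⟩
  · rintro ⟨a, rfl⟩
    exact ⟨_, (X.cl_B (X.t_mem a) y).symm, rfl⟩

lemma ν_inj (y : Y) : Function.Injective (X.ν y) := fun a a' h => by
  obtain ⟨j, hj⟩ := X.r2_cl h
  rw [X.S2, X.S2, (X.r_t a y).1, (X.r_t a' y).1] at hj
  obtain ⟨h1, h2⟩ := X.ind y (1 - ze ^ j) (a' - ze ^ j * a) (by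
    rw [sub_smul, sub_smul, one_smul, sub_add_sub_comm, hj, smul_add, smul_smul, sub_self])
  linear_combination -h2 + a * h1

lemma ν_rot (i : ℕ) (y : Y) (a : Ei N) : X.ν ((X.ρ ^ i) y) (ze ^ i * a) = X.ν y a := by
  rw [ν, ← Perm.mul_apply (X.t _), ← ρp_t, Perm.mul_apply, cl_Sρ, ν]

lemma ν_step (y : Y) (a : Ei N) : X.G.Adj (X.ν y a) (X.ν y (-1 + a)) := by
  refine (X.adj_iff _ _).2 ⟨1, ?_⟩
  have h0 : X.S * (X.T * X.S * X.T * X.S * X.T) = X.S * X.S := by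
    rw [X.SS, ← X.ST]; simp only [mul_assoc]
  have h : X.S * X.T * X.S = X.T⁻¹ * (X.S * X.T⁻¹) := by
    conv_rhs => rw [← mul_left_cancel h0]
    group
  rw [ν, ν, t_add, t_neg, t_one, ← Perm.mul_apply X.S X.T, ← Perm.mul_apply (X.S * X.T), h,
    Perm.mul_apply X.T⁻¹ (X.S * X.T⁻¹), X.cl_B (X.B.inv_mem (X.t_one ▸ X.t_mem 1))]
  rfl

lemma ν_adj (y : Y) (a a' : Ei N) : X.G.Adj (X.ν y a) (X.ν y a') ↔ (Cay X.h8).Adj a a' := by
  constructor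
  · intro h
    obtain ⟨c, hc⟩ := (X.adj_iff _ _).1 h
    obtain ⟨j, hj⟩ := X.r2_cl hc.symm
    rw [X.S2, X.S2, (X.r_t _ _).1, (X.r_t _ _).1, X.S1, X.S2, (X.r_t _ _).1, (X.r_t _ _).2] at hj
    obtain ⟨h1, h2⟩ := X.ind y (1 - ze ^ j * c) (a' - (-ze ^ j + ze ^ j * c * a)) (by
      rw [sub_smul, sub_smul, one_smul, sub_add_sub_comm, hj]; module)
    exact ⟨j + 3, by rw [pow_add, ze_three]; linear_combination h2 - a * h1⟩
  · rintro ⟨i, h⟩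
    have := X.ν_step ((X.ρ ^ (5 * i + 3)) y) (ze ^ (5 * i + 3) * a)
    rwa [show -1 + ze ^ (5 * i + 3) * a = ze ^ (5 * i + 3) * a' by
      rw [pow_add, ze_three]; linear_combination ze ^ (5 * i) * h + ze_inv (N := N) i,
      ν_rot, ν_rot] at this

lemma nice_link (u : X.V) : Nice (X.G.induce (X.G.neighborSet u)) (N ^ 2) 6 := by
  obtain ⟨y, rfl⟩ := X.cl_surj u
  let φ : Ei N → X.G.neighborSet (X.cl y) := fun a => ⟨X.ν y a, (X.adj_iff _ _).2 ⟨a, rfl⟩⟩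
  have hb : Function.Bijective φ := ⟨fun a b h => X.ν_inj y (congrArg Subtype.val h),
    fun ⟨v, hv⟩ => let ⟨a, ha⟩ := (X.adj_iff _ _).1 hv; ⟨a, Subtype.ext ha.symm⟩⟩
  exact (nice_cay X.h8).iso ⟨Equiv.ofBijective φ hb, fun {a b} => X.ν_adj y a b⟩

lemma nice_edge {u v : X.V} (h : X.G.Adj u v) :
    Nice (X.G.induce (X.G.commonNeighbors u v)) 6 2 := by
  obtain ⟨y, rfl⟩ := X.cl_surj u
  obtain ⟨a, rfl⟩ := (X.adj_iff _ _).1 h
  let φ : (Cay X.h8).neighborSet a → X.G.commonNeighbors (X.cl y) (X.ν y a) :=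
    fun b => ⟨X.ν y b, (X.adj_iff _ _).2 ⟨b, rfl⟩, (X.ν_adj _ _ _).2 b.2⟩
  have hb : Function.Bijective φ :=
    ⟨fun a b h => Subtype.ext (X.ν_inj y (congrArg Subtype.val h)), fun ⟨v, hv, hv'⟩ => by
      obtain ⟨b, rfl⟩ := (X.adj_iff _ _).1 hv
      exact ⟨⟨b, (X.ν_adj _ _ _).1 hv'⟩, rfl⟩⟩
  exact (nice_hex X.h8 a).iso ⟨Equiv.ofBijective φ hb, fun {a b} => X.ν_adj y a b⟩

lemma reg : Reg X.G (N ^ 2) := fun u => (X.nice_link u).2.2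

open Classical in
lemma fibre [Fintype Y] (u : X.V) :
    1 ≤ #{y | X.cl y = u} ∧ #{y | X.cl y = u} ≤ 36 * N ^ 2 := by
  obtain ⟨y, rfl⟩ := X.cl_surj u
  let _ := Fintype.ofFinite (Ei N)
  refine ⟨card_pos.2 ⟨y, by simp⟩, ?_⟩
  refine le_trans (card_le_card (t := univ.image fun c : Fin 6 × Fin 6 × Ei N =>
    (X.ρ ^ (c.1 : ℕ) * X.σ ^ (c.2.1 : ℕ) * X.t c.2.2) y) fun z hz => ?_) (card_image_le.trans ?_)
  · obtain ⟨_, ⟨i, j, a, rfl⟩, rfl⟩ := X.cl_eq.1 (mem_filter.1 hz).2.symm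
    refine mem_image.2 ⟨(⟨i % 6, Nat.mod_lt _ (by norm_num)⟩, ⟨j % 6, Nat.mod_lt _ (by norm_num)⟩,
      a), mem_univ _, ?_⟩
    simp only [← pow_eq_pow_mod _ X.ρ6, ← pow_eq_pow_mod _ X.σ6]
  · rw [card_univ, Fintype.card_prod, Fintype.card_prod, ← Nat.card_eq_fintype_card (α := Ei N),
      card_Ei]
    simp only [Fintype.card_fin]
    omega

lemma sum_cl [Fintype Y] [Fintype X.V] (h : X.V → ℝ) (h0 : ∀ u, 0 ≤ h u) :
    ∑ u, h u ≤ ∑ y, h (X.cl y) ∧ ∑ y, h (X.cl y) ≤ 36 * N ^ 2 * ∑ u, h u := by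
  classical
  have e : ∑ y, h (X.cl y) = ∑ u, (#{y | X.cl y = u} : ℝ) * h u := by
    rw [← sum_fiberwise univ X.cl]
    refine sum_congr rfl fun u _ => ?_
    rw [sum_congr rfl fun y hy => congrArg h (mem_filter.1 hy).2, sum_const, nsmul_eq_mul]
  rw [e, mul_sum]
  refine ⟨sum_le_sum fun u _ => le_mul_of_one_le_left (h0 u) ?_,
    sum_le_sum fun u _ => mul_le_mul_of_nonneg_right ?_ (h0 u)⟩
  · exact_mod_cast (X.fibre u).1
  · exact_mod_cast (X.fibre u).2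

lemma DS_le [Fintype Y] [Fintype X.V] (F : X.V → ℝ) :
    ∑ y, (F (X.cl (X.S y)) - F (X.cl y)) ^ 2 ≤ 36 * N ^ 2 * En X.G F := by
  classical
  have h0 : ∀ u v, (0 : ℝ) ≤ if X.G.Adj u v then (F u - F v) ^ 2 else 0 := fun u v => by
    split_ifs <;> positivity
  refine le_trans (sum_le_sum fun y _ => ?_) (X.sum_cl
    (fun u => ∑ v, if X.G.Adj u v then (F u - F v) ^ 2 else 0)
    fun u => sum_nonneg fun v _ => h0 u v).2
  refine le_trans ?_ (single_le_sum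
    (f := fun v => if X.G.Adj (X.cl y) v then (F (X.cl y) - F v) ^ 2 else 0)
    (fun v _ => h0 _ v) (mem_univ (X.cl (X.S y))))
  rw [if_pos ⟨y, rfl, rfl⟩]
  exact le_of_eq (by ring)

end Setup

end Pool.Agent.Lib.MP_972ec5_co
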