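import Pool.Agent.Lib.MP_972ec5_co.Defs

/-! From Poincare inequalities to bounds on the second eigenvalue. -/

namespace Pool.Agent.Lib.MP_972ec5_co

open Finset Matrix

variable {V : Type}

open Classical in
noncomputable def En [Fintype V] (H : SimpleGraph V) (f : V → ℝ) : ℝ :=
  ∑ u, ∑ v, if H.Adj u v then (f u - f v) ^ 2 else 0

noncomputable def Var [Fintype V] (f : V → ℝ) : ℝ := ∑ u, ∑ v, (f u - f v) ^ 2

def Poin [Fintype V] (H : SimpleGraph V) (C : ℝ) : Prop :=
  ∀ f : V → ℝ, Var f ≤ C * Fintype.card V * En H f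

lemma En_nonneg [Fintype V] (H : SimpleGraph V) (f : V → ℝ) : 0 ≤ En H f := by
  unfold En
  refine sum_nonneg fun u _ => sum_nonneg fun v _ => ?_
  split_ifs <;> positivity

lemma edge_le_En [Fintype V] (H : SimpleGraph V) (f : V → ℝ) {a b : V} (h : H.Adj a b) :
    (f a - f b) ^ 2 ≤ En H f := by
  classical
  unfold En
  have h0 : ∀ u v, (0 : ℝ) ≤ if H.Adj u v then (f u - f v) ^ 2 else 0 := fun u v => by
    split_ifs <;> positivity
  refine le_trans ?_ (single_le_sum (f := fun u => ∑ v, if H.Adj u v then (f u - f v) ^ 2 else 0)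
    (fun u _ => sum_nonneg fun v _ => h0 u v) (mem_univ a))
  refine le_trans ?_ (single_le_sum (f := fun v => if H.Adj a v then (f a - f v) ^ 2 else 0)
    (fun v _ => h0 a v) (mem_univ b))
  simp [h]

lemma Var_eq [Fintype V] (f : V → ℝ) :
    Var f = 2 * Fintype.card V * (f ⬝ᵥ f) - 2 * (∑ u, f u) ^ 2 := by
  unfold Var dotProduct
  have : ∀ u v, (f u - f v) ^ 2 = f u * f u + f v * f v - 2 * (f u * f v) := fun u v => by ring
  simp only [this, sum_sub_distrib, sum_add_distrib, sum_const, card_univ, nsmul_eq_mul,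
    ← mul_sum, ← sum_mul]
  ring

lemma lam2_le [hf : Finite V] [inst : Fintype V] (H : SimpleGraph V) {d : ℕ} {C : ℝ}
    (hR : Reg H d) (hC : 0 < C) (hP : Poin H C) (h1 : 1 < Fintype.card V) :
    lam2 H ≤ d - 1 / C := by
  obtain rfl : inst = @Fintype.ofFinite V hf := Subsingleton.elim _ _
  classical
  let _ := @Fintype.ofFinite V hf
  unfold lam2
  rw [dif_pos h1]
  set hA := H.isHermitian_adjMatrix ℝ
  set e : Fin (Fintype.card V) ≃ V := Fintype.equivOfCardEq (Fintype.card_fin _)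
  set i0 := e ⟨0, by omega⟩
  set i1 := e ⟨1, h1⟩
  have hne : i0 ≠ i1 := fun h => by simpa using e.injective h
  set b0 : V → ℝ := ⇑(hA.eigenvectorBasis i0)
  set b1 : V → ℝ := ⇑(hA.eigenvectorBasis i1)
  have e1 : hA.eigenvalues i1 = hA.eigenvalues₀ ⟨1, h1⟩ := by
    simp [Matrix.IsHermitian.eigenvalues, i1, e]
  have e0 : hA.eigenvalues i1 ≤ hA.eigenvalues i0 := by
    rw [e1]
    have : hA.eigenvalues i0 = hA.eigenvalues₀ ⟨0, by omega⟩ := by
      simp [Matrix.IsHermitian.eigenvalues, i0, e]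
    rw [this]
    exact hA.eigenvalues₀_antitone (by simp [Fin.le_def])
  rw [← e1]
  have hon := orthonormal_iff_ite.1 hA.eigenvectorBasis.orthonormal
  have d00 : b0 ⬝ᵥ b0 = 1 := by
    have := hon i0 i0
    rwa [EuclideanSpace.inner_eq_star_dotProduct, star_trivial, if_pos rfl] at this
  have d11 : b1 ⬝ᵥ b1 = 1 := by
    have := hon i1 i1
    rwa [EuclideanSpace.inner_eq_star_dotProduct, star_trivial, if_pos rfl] at this
  have d10 : b1 ⬝ᵥ b0 = 0 := by
    have := hon i0 i1
    rwa [EuclideanSpace.inner_eq_star_dotProduct, star_trivial, if_neg hne] at this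
  have d01 : b0 ⬝ᵥ b1 = 0 := by rw [dotProduct_comm, d10]
  have m0 := hA.mulVec_eigenvectorBasis i0
  have m1 := hA.mulVec_eigenvectorBasis i1
  obtain ⟨α, β, hab, hs⟩ : ∃ α β : ℝ, 0 < α ^ 2 + β ^ 2 ∧ α * ∑ u, b0 u + β * ∑ u, b1 u = 0 := by
    by_cases h : ∑ u, b1 u = 0
    · exact ⟨0, 1, by norm_num, by simp [h]⟩
    · exact ⟨∑ u, b1 u, -∑ u, b0 u, by positivity, by ring⟩
  set f : V → ℝ := α • b0 + β • b1
  have hff : f ⬝ᵥ f = α ^ 2 + β ^ 2 := by
    simp only [f, add_dotProduct, dotProduct_add, smul_dotProduct, dotProduct_smul, d00, d11, d10,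
      d01, smul_eq_mul]
    ring
  have hAf : f ⬝ᵥ (H.adjMatrix ℝ *ᵥ f) = α ^ 2 * hA.eigenvalues i0 + β ^ 2 * hA.eigenvalues i1 := by
    simp only [f, mulVec_add, mulVec_smul]
    rw [m0, m1]
    simp only [add_dotProduct, dotProduct_add, smul_dotProduct, dotProduct_smul, smul_eq_mul]
    rw [d00, d11, d10, d01]
    ring
  have hsum : ∑ u, f u = 0 := by
    simp only [f, Pi.add_apply, Pi.smul_apply, smul_eq_mul, sum_add_distrib, ← mul_sum]
    exact hs
  have hdeg : ∀ v, H.degree v = d := fun v => by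
    rw [← hR v, ← SimpleGraph.card_neighborSet_eq_degree, Set.ncard_eq_toFinset_card',
      Set.toFinset_card]
  have hE : En H f = 2 * (d * (f ⬝ᵥ f) - f ⬝ᵥ (H.adjMatrix ℝ *ᵥ f)) := by
    have := H.lapMatrix_toLinearMap₂' ℝ f
    rw [toLinearMap₂'_apply', SimpleGraph.lapMatrix, sub_mulVec, dotProduct_sub,
      SimpleGraph.dotProduct_mulVec_degMatrix] at this
    simp only [hdeg, mul_assoc, ← mul_sum] at this
    unfold En
    unfold dotProduct at this ⊢
    linarith
  have hp := hP f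
  rw [Var_eq, hsum, hE, hAf, hff] at hp
  have hn : (0 : ℝ) < Fintype.card V := by exact_mod_cast (by omega : 0 < Fintype.card V)
  set l1 := hA.eigenvalues i1
  set l0 := hA.eigenvalues i0
  set s := α ^ 2 + β ^ 2
  have h2 : s ≤ C * (d * s - (α ^ 2 * l0 + β ^ 2 * l1)) := by
    have : (2 * Fintype.card V : ℝ) * s ≤
        (2 * Fintype.card V : ℝ) * (C * (d * s - (α ^ 2 * l0 + β ^ 2 * l1))) := by linarith
    exact le_of_mul_le_mul_left this (by positivity)
  have h3 : d * s - (α ^ 2 * l0 + β ^ 2 * l1) ≤ (d - l1) * s := by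
    have := mul_le_mul_of_nonneg_left e0 (sq_nonneg α)
    simp only [s]; linarith
  have h4 : 1 * s ≤ (C * (d - l1)) * s := by
    have := mul_le_mul_of_nonneg_left h3 hC.le
    linarith
  have h5 := le_of_mul_le_mul_right h4 hab
  have : 1 / C ≤ d - l1 := by rw [div_le_iff₀ hC]; linarith
  linarith

lemma walk_le [Fintype V] (H : SimpleGraph V) (f : V → ℝ) {a b : V} (p : H.Walk a b) :
    (f a - f b) ^ 2 ≤ (2 ^ (p.length + 1) - 2) * En H f := by
  induction p with
  | nil => simp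
  | @cons a c b h p ih =>
    have h1 := edge_le_En H f h
    have : (f a - f b) ^ 2 ≤ 2 * (f a - f c) ^ 2 + 2 * (f c - f b) ^ 2 := by
      nlinarith [sq_nonneg (f a - 2 * f c + f b)]
    rw [SimpleGraph.Walk.length_cons, pow_succ (2 : ℝ) (p.length + 1)]
    linarith

lemma poin_of_conn [Fintype V] (H : SimpleGraph V) (hc : H.Preconnected) :
    Poin H (Fintype.card V * 2 ^ (Fintype.card V + 1)) := by
  classical
  intro f
  have key : ∀ a b, (f a - f b) ^ 2 ≤ 2 ^ (Fintype.card V + 1) * En H f := fun a b => by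
    obtain ⟨p⟩ := hc a b
    have h1 := walk_le H f (p.toPath : H.Walk a b)
    have h2 := p.toPath.2.length_lt
    have h3 : (2 : ℝ) ^ ((p.toPath : H.Walk a b).length + 1) ≤ 2 ^ (Fintype.card V + 1) :=
      pow_le_pow_right₀ (by norm_num) (by omega)
    exact h1.trans (mul_le_mul_of_nonneg_right (by linarith) (En_nonneg H f))
  calc Var f ≤ ∑ _u : V, ∑ _v : V, 2 ^ (Fintype.card V + 1) * En H f :=
        sum_le_sum fun u _ => sum_le_sum fun v _ => key u v
    _ = _ := by simp only [sum_const, card_univ, nsmul_eq_mul]; ring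

/-- Connected, `d`-regular, on `M` vertices. -/
def Nice (H : SimpleGraph V) (M d : ℕ) : Prop := H.Preconnected ∧ Reg H d ∧ Nat.card V = M

lemma Nice.gap [Finite V] {H : SimpleGraph V} {M d : ℕ} (h : Nice H M d) (hM : 1 < M) :
    lam2 H ≤ d - 1 / (M * 2 ^ (M + 1)) := by
  let _ := Fintype.ofFinite V
  have hc : Fintype.card V = M := by rw [← h.2.2, Nat.card_eq_fintype_card]
  have := poin_of_conn H h.1
  rw [hc] at this
  exact lam2_le H h.2.1 (by positivity) this (by omega)

lemma Nice.iso {W : Type} {H : SimpleGraph V} {K : SimpleGraph W} {M d : ℕ} (h : Nice H M d)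
    (φ : H ≃g K) : Nice K M d := by
  refine ⟨φ.preconnected_iff.1 h.1, fun w => ?_, ?_⟩
  · obtain ⟨v, rfl⟩ := φ.surjective w
    rw [← h.2.1 v]
    exact (Set.ncard_congr' (φ.mapNeighborSet v)).symm
  · rw [← h.2.2]; exact Nat.card_congr φ.toEquiv.symm

end Pool.Agent.Lib.MP_972ec5_co
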